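import Mathlib
import Pool.Agent.Lib.MP_5bc52d_co.Bottom

/-!
# Homogeneous quasisymmetric functions not killed by a functional vanishing on products
-/

open Finset

namespace Pool.Agent.Lib.MP_5bc52d_co.Cyc

/-- total degree of an exponent -/
def deg (m : ℕ →₀ ℕ) : ℕ := m.sum (fun _ e => e)

theorem deg_add (m m' : ℕ →₀ ℕ) : deg (m + m') = deg m + deg m' := by
  rw [deg, deg, deg, Finsupp.sum_add_index' (by simp) (by simp)]

theorem deg_zero : deg 0 = 0 := by simp [deg]

/-- homogeneous component -/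
noncomputable def hc (d : ℕ) (F : R) : R :=
  fun m => if deg m = d then MvPowerSeries.coeff m F else 0

theorem coeff_hc (d : ℕ) (F : R) (m : ℕ →₀ ℕ) :
    MvPowerSeries.coeff m (hc d F) = if deg m = d then MvPowerSeries.coeff m F else 0 := rfl

theorem hc_mul (d : ℕ) (F G : R) :
    hc d (F * G) = ∑ p ∈ antidiagonal d, hc p.1 F * hc p.2 G := by
  ext m
  rw [coeff_hc, map_sum]
  simp only [MvPowerSeries.coeff_mul, coeff_hc]
  rw [Finset.sum_comm]
  split_ifs with h
  · apply Finset.sum_congr rfl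
    intro q hq
    rw [HasAntidiagonal.mem_antidiagonal] at hq
    rw [Finset.sum_eq_single (deg q.1, deg q.2)]
    · simp
    · intro p _ hp
      by_cases h1 : deg q.1 = p.1
      · by_cases h2 : deg q.2 = p.2
        · exact absurd (Prod.ext h1.symm h2.symm) hp
        · rw [if_neg h2, mul_zero]
      · rw [if_neg h1, zero_mul]
    · intro h2
      exfalso
      apply h2
      rw [HasAntidiagonal.mem_antidiagonal, ← deg_add, hq, h]
  · symm
    apply Finset.sum_eq_zero
    intro q hq
    rw [HasAntidiagonal.mem_antidiagonal] at hq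
    apply Finset.sum_eq_zero
    intro p hp
    rw [HasAntidiagonal.mem_antidiagonal] at hp
    by_cases h1 : deg q.1 = p.1
    · by_cases h2 : deg q.2 = p.2
      · exfalso
        apply h
        rw [← hq, deg_add, h1, h2, hp]
      · rw [if_neg h2, mul_zero]
    · rw [if_neg h1, zero_mul]

theorem exists_hc_ne_zero {F : R} (hF : F ≠ 0) : ∃ d, hc d F ≠ 0 := by
  by_contra hcon
  push Not at hcon
  apply hF
  ext m
  have := congrArg (MvPowerSeries.coeff m) (hcon (deg m))
  rw [coeff_hc, if_pos rfl] at this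
  exact this

theorem hc_eq_zero_of_lt {F : R} {N : ℕ}
    (hN : ∀ m : ℕ →₀ ℕ, N < m.sum (fun _ e => e) → MvPowerSeries.coeff m F = 0) {d : ℕ}
    (hd : N < d) : hc d F = 0 := by
  ext m
  rw [coeff_hc]
  split_ifs with h
  · rw [hN m (by rw [← deg, h]; exact hd)]
    simp
  · simp

/-- largest degree -/
theorem exists_max {F : R} (hF : F ≠ 0) {N : ℕ}
    (hN : ∀ m : ℕ →₀ ℕ, N < m.sum (fun _ e => e) → MvPowerSeries.coeff m F = 0) :
    ∃ d, hc d F ≠ 0 ∧ ∀ e, d < e → hc e F = 0 := by
  classical
  obtain ⟨d₀, hd₀⟩ := exists_hc_ne_zero hF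
  have hne : ((Finset.range (N + 1)).filter (fun d => hc d F ≠ 0)).Nonempty := by
    refine ⟨d₀, ?_⟩
    rw [Finset.mem_filter, Finset.mem_range]
    refine ⟨?_, hd₀⟩
    by_contra h
    exact hd₀ (hc_eq_zero_of_lt hN (by omega))
  refine ⟨_, (Finset.mem_filter.mp (Finset.max'_mem _ hne)).2, fun e he => ?_⟩
  by_contra h
  have h1 : e ∈ (Finset.range (N + 1)).filter (fun d => hc d F ≠ 0) := by
    rw [Finset.mem_filter, Finset.mem_range]
    refine ⟨?_, h⟩
    by_contra h2
    exact h (hc_eq_zero_of_lt hN (by omega))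
  have := Finset.le_max' _ e h1
  omega

/-- smallest degree -/
theorem exists_min {F : R} (hF : F ≠ 0) :
    ∃ d, hc d F ≠ 0 ∧ ∀ e, e < d → hc e F = 0 := by
  classical
  have h := exists_hc_ne_zero hF
  refine ⟨Nat.find h, Nat.find_spec h, fun e he => ?_⟩
  have := Nat.find_min h he
  push Not at this
  exact this

theorem hc_mul_top {F G : R} {a b : ℕ} (ha : ∀ e, a < e → hc e F = 0)
    (hb : ∀ e, b < e → hc e G = 0) : hc (a + b) (F * G) = hc a F * hc b G := by
  rw [hc_mul, Finset.sum_eq_single (a, b)]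
  · intro p hp hne
    rw [HasAntidiagonal.mem_antidiagonal] at hp
    rcases lt_trichotomy p.1 a with h | h | h
    · rw [hb p.2 (by omega), mul_zero]
    · exfalso
      exact hne (Prod.ext h (by simp only; omega))
    · rw [ha p.1 h, zero_mul]
  · intro h
    exfalso
    apply h
    rw [HasAntidiagonal.mem_antidiagonal]

theorem hc_mul_bot {F G : R} {b : ℕ} (hb : ∀ e, e < b → hc e G = 0) :
    hc b (F * G) = hc 0 F * hc b G := by
  rw [hc_mul, Finset.sum_eq_single (0, b)]
  · intro p hp hne
    rw [HasAntidiagonal.mem_antidiagonal] at hp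
    by_cases h : p.1 = 0
    · exfalso
      exact hne (Prod.ext h (by simp only; omega))
    · rw [hb p.2 (by omega), mul_zero]
  · intro h
    exact absurd (HasAntidiagonal.mem_antidiagonal.mpr (zero_add b)) h

variable {Q : Subring R}

theorem isUnit_of_mul (hQ : ∀ F : R, F ∈ Q ↔ IsQS F) {A B : Q} {n : ℕ}
    (hhom : ∀ d, d ≠ n → hc d ((A * B : Q) : R) = 0) (hne : (A * B : Q) ≠ 0)
    (hA : MvPowerSeries.coeff 0 (A : R) ≠ 0) : IsUnit A := by
  have hD : IsDomain R := NoZeroDivisors.to_isDomain R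
  have hA0 : (A : R) ≠ 0 := by
    intro h
    rw [h] at hA
    simp at hA
  have hB0 : (B : R) ≠ 0 := by
    intro h
    apply hne
    apply Subtype.ext
    change (A : R) * (B : R) = 0
    rw [h, mul_zero]
  obtain ⟨NA, hNA⟩ := ((hQ _).mp A.2).1
  obtain ⟨NB, hNB⟩ := ((hQ _).mp B.2).1
  obtain ⟨a, ha1, ha2⟩ := exists_max hA0 hNA
  obtain ⟨b, hb1, hb2⟩ := exists_max hB0 hNB
  obtain ⟨c, hc1, hc2⟩ := exists_min hB0
  have h1 : hc (a + b) ((A * B : Q) : R) ≠ 0 := by
    change hc (a + b) ((A : R) * (B : R)) ≠ 0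
    rw [hc_mul_top ha2 hb2]
    exact mul_ne_zero ha1 hb1
  have h2 : hc c ((A * B : Q) : R) ≠ 0 := by
    change hc c ((A : R) * (B : R)) ≠ 0
    rw [hc_mul_bot hc2]
    refine mul_ne_zero ?_ hc1
    intro h
    have := congrArg (MvPowerSeries.coeff 0) h
    rw [coeff_hc, if_pos deg_zero] at this
    exact hA this
  have h3 : a + b = n := by
    by_contra h
    exact h1 (hhom _ h)
  have h4 : c = n := by
    by_contra h
    exact h2 (hhom _ h)
  have h5 : c ≤ b := by
    by_contra h
    exact hc1 (hb2 c (by omega))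
  have h6 : a = 0 := by omega
  apply isUnit_of_const hQ A (fun h => hA0 (congrArg Subtype.val h))
  intro m hm
  have hdm : deg m ≠ 0 := by
    intro h
    apply hm
    rw [deg, Finsupp.sum, Finset.sum_eq_zero_iff] at h
    ext i
    by_cases hi : i ∈ m.support
    · exact h i hi
    · simpa using hi
  have := congrArg (MvPowerSeries.coeff m) (ha2 (deg m) (by omega))
  rw [coeff_hc, if_pos rfl] at this
  exact this

/-- A homogeneous quasisymmetric function which is not killed by some functional vanishing on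
products of functions without constant term is irreducible. -/
theorem irreducible_of_functional (hQ : ∀ F : R, F ∈ Q ↔ IsQS F) (G : Q) (n : ℕ) (hn : 1 ≤ n)
    (hhom : ∀ m : ℕ →₀ ℕ, MvPowerSeries.coeff m (G : R) ≠ 0 → deg m = n)
    (η : R → ℚ)
    (hη : ∀ A B : R, IsQS A → IsQS B → MvPowerSeries.coeff 0 A = 0 →
      MvPowerSeries.coeff 0 B = 0 → η (A * B) = 0)
    (hG : η (G : R) ≠ 0) : Irreducible G := by
  have hz : IsQS (0 : R) := (hQ 0).mp Q.zero_mem
  have hG0 : G ≠ 0 := by
    intro h
    apply hG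
    rw [h]
    have := hη 0 0 hz hz (by simp) (by simp)
    rw [mul_zero] at this
    exact this
  have hhom' : ∀ d, d ≠ n → hc d (G : R) = 0 := by
    intro d hd
    ext m
    rw [coeff_hc]
    split_ifs with h
    · by_contra h1
      exact hd (h ▸ hhom m h1)
    · simp
  have hG00 : MvPowerSeries.coeff 0 (G : R) = 0 := by
    by_contra h
    have := hhom 0 h
    rw [deg_zero] at this
    omega
  constructor
  · rintro ⟨u, hu⟩
    have h1 : (G : R) * ((↑u⁻¹ : Q) : R) = 1 := by
      rw [← hu]
      have : (u : Q) * (↑u⁻¹ : Q) = 1 := by simp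
      exact congrArg Subtype.val this
    have h2 := congrArg (MvPowerSeries.coeff 0) h1
    rw [MvPowerSeries.coeff_zero_eq_constantCoeff_apply, map_mul,
      ← MvPowerSeries.coeff_zero_eq_constantCoeff_apply, hG00, zero_mul] at h2
    classical
    rw [MvPowerSeries.coeff_one, if_pos rfl] at h2
    exact zero_ne_one h2
  · intro A B hAB
    by_contra hcon
    rw [not_or] at hcon
    by_cases hA : MvPowerSeries.coeff 0 (A : R) = 0
    · by_cases hB : MvPowerSeries.coeff 0 (B : R) = 0
      · apply hG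
        rw [hAB]
        exact hη A B ((hQ _).mp A.2) ((hQ _).mp B.2) hA hB
      · apply hcon.2
        refine isUnit_of_mul (A := B) (B := A) (n := n) hQ ?_ ?_ hB
        · rw [mul_comm, ← hAB]; exact hhom'
        · rw [mul_comm, ← hAB]; exact hG0
    · apply hcon.1
      refine isUnit_of_mul (A := A) (B := B) (n := n) hQ ?_ ?_ hA
      · rw [← hAB]; exact hhom'
      · rw [← hAB]; exact hG0

end Pool.Agent.Lib.MP_5bc52d_co.Cyc
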