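import Mathlib
import Pool.Agent.Lib.MP_5bc52d_co.Split

/-!
# Systems of lexicographic inequalities indexed by oriented edges

`s i`, `t i` are the ends of the edge `i`, and `o i = true` orients it from `s i` to `t i`.
-/

open Finset

namespace Pool.Agent.Lib.MP_5bc52d_co.Cyc

section defs

variable {V ι : Type*} (s t : ι → V)

/-- the source of an edge -/
def src (o : ι → Bool) (i : ι) : V := if o i then s i else t i

/-- the target of an edge -/
def tgt (o : ι → Bool) (i : ι) : V := if o i then t i else s i

/-- `x` and `y` are joined by a path of edges in `A` -/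
def conn (A : Finset ι) : V → V → Prop :=
  Relation.EqvGen (fun x y => ∃ i ∈ A, s i = x ∧ t i = y)

/-- there is an edge of `A` oriented from `x` to `y` -/
def arc (A : Finset ι) (o : ι → Bool) (x y : V) : Prop :=
  ∃ i ∈ A, src s t o i = x ∧ tgt s t o i = y

/-- reverse the edges in `T` -/
def rev [DecidableEq ι] (T : Finset ι) (o : ι → Bool) : ι → Bool :=
  fun i => if i ∈ T then !(o i) else o i

/-- if the ends of an edge of `T` are joined by other edges then they are joined by other edges
of `T`, hereditarily -/
def Sep [DecidableEq ι] (A T : Finset ι) : Prop :=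
  ∀ B ⊆ A, ∀ i ∈ B, i ∈ T → conn s t (B.erase i) (s i) (t i) →
    conn s t ((B ∩ T).erase i) (s i) (t i)

/-- the lexicographic order defined by `f` and `ω` -/
def lexlt (ω f : V → ℕ) (x y : V) : Prop := f x < f y ∨ (f x = f y ∧ ω x < ω y)

/-- the maps satisfying all the inequalities -/
def Valid (ω : V → ℕ) (A : Finset ι) (o : ι → Bool) (f : V → ℕ) : Prop :=
  ∀ i ∈ A, lexlt ω f (src s t o i) (tgt s t o i)

/-- the generating function -/
noncomputable def GamA [Fintype V] (ω : V → ℕ) (A : Finset ι) (o : ι → Bool) : R :=
  fun m => ((Nat.card {f : V → ℕ // Valid s t ω A o f ∧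
    ∑ v : V, Finsupp.single (f v) 1 = m} : ℕ) : ℚ)

end defs

end Pool.Agent.Lib.MP_5bc52d_co.Cyc
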