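import Mathlib
import Pool.Agent.Lib.MP_5bc52d_co.Split

/-!
# The half-space functionals

For a weight `w` on a finite set the numbers `U w S F` are the components of a homomorphism from
the quasisymmetric functions to the exterior-like algebra `ℚ[ε_v]/(ε_v²)`.
-/

open Finset

namespace Pool.Agent.Lib.MP_5bc52d_co.Cyc

variable {V : Type*} [DecidableEq V]

/-- the weight of a set -/
def wt (w : V → ℤ) (S : Finset V) : ℤ := ∑ v ∈ S, w v

theorem wt_sdiff (w : V → ℤ) {S T : Finset V} (h : T ⊆ S) : wt w T + wt w (S \ T) = wt w S := by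
  rw [wt, wt, wt, add_comm]
  exact Finset.sum_sdiff h

/-- the functionals -/
noncomputable def U (w : V → ℤ) (S : Finset V) (F : R) : ℚ :=
  if S = ∅ then MvPowerSeries.coeff 0 F
  else if 0 ≤ wt w S then
    - ∑ B ∈ (S.powerset.erase ∅).attach,
      ((B.1.card.factorial : ℕ) : ℚ) * U w (S \ B.1) (part B.1.card F)
  else 0
termination_by S.card
decreasing_by
  have hB := B.2
  rw [Finset.mem_erase, Finset.mem_powerset] at hB
  apply Finset.card_lt_card
  rw [Finset.ssubset_iff_of_subset Finset.sdiff_subset]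
  obtain ⟨x, hx⟩ := Finset.nonempty_iff_ne_empty.mpr hB.1
  exact ⟨x, hB.2 hx, by simp [hx]⟩

theorem U_empty (w : V → ℤ) (F : R) : U w ∅ F = MvPowerSeries.coeff 0 F := by
  rw [U, if_pos rfl]

theorem U_neg (w : V → ℤ) {S : Finset V} (hS : S ≠ ∅) (h : wt w S < 0) (F : R) :
    U w S F = 0 := by
  rw [U, if_neg hS, if_neg (not_le.mpr h)]

theorem U_nonneg (w : V → ℤ) {S : Finset V} (hS : S ≠ ∅) (h : 0 ≤ wt w S) (F : R) :
    U w S F = - ∑ B ∈ S.powerset.erase ∅,
      ((B.card.factorial : ℕ) : ℚ) * U w (S \ B) (part B.card F) := by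
  rw [U, if_neg hS, if_pos h]
  congr 1
  exact Finset.sum_attach (S.powerset.erase ∅)
    (fun B => ((B.card.factorial : ℕ) : ℚ) * U w (S \ B) (part B.card F))

theorem U_sum (w : V → ℤ) {S : Finset V} (hS : S ≠ ∅) (h : 0 ≤ wt w S) {F : R} (hF : IsQS F) :
    ∑ B ∈ S.powerset, ((B.card.factorial : ℕ) : ℚ) * U w (S \ B) (part B.card F) = 0 := by
  rw [← Finset.add_sum_erase S.powerset _ (Finset.empty_mem_powerset S)]
  have h1 := U_nonneg w hS h F
  rw [Finset.card_empty, Finset.sdiff_empty, part_zero_eq hF, Nat.factorial_zero, Nat.cast_one,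
    one_mul, h1]
  ring

theorem U_add_aux (w : V → ℤ) (n : ℕ) : ∀ (S : Finset V), S.card = n → ∀ F G : R,
    U w S (F + G) = U w S F + U w S G := by
  induction n using Nat.strong_induction_on with
  | _ n ih =>
    intro S hSn F G
    by_cases hS : S = ∅
    · subst hS
      rw [U_empty, U_empty, U_empty, map_add]
    · rcases lt_or_ge (wt w S) 0 with hw | hw
      · rw [U_neg w hS hw, U_neg w hS hw, U_neg w hS hw, add_zero]
      · rw [U_nonneg w hS hw, U_nonneg w hS hw, U_nonneg w hS hw, ← neg_add,
          ← Finset.sum_add_distrib]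
        congr 1
        apply Finset.sum_congr rfl
        intro B hB
        rw [Finset.mem_erase, Finset.mem_powerset] at hB
        have hlt : (S \ B).card < n := by
          rw [← hSn]
          apply Finset.card_lt_card
          rw [Finset.ssubset_iff_of_subset Finset.sdiff_subset]
          obtain ⟨x, hx⟩ := Finset.nonempty_iff_ne_empty.mpr hB.1
          exact ⟨x, hB.2 hx, by simp [hx]⟩
        rw [part_add, ih _ hlt _ rfl, mul_add]

theorem U_add (w : V → ℤ) (S : Finset V) (F G : R) : U w S (F + G) = U w S F + U w S G :=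
  U_add_aux w _ S rfl F G

/-- the functional as an additive map -/
noncomputable def Uhom (w : V → ℤ) (S : Finset V) : R →+ ℚ :=
  AddMonoidHom.mk' (U w S) (U_add w S)

theorem Uhom_apply (w : V → ℤ) (S : Finset V) (F : R) : Uhom w S F = U w S F := rfl

theorem fac_split (B : Finset V) (h : ℕ → ℕ → ℚ) :
    ((B.card.factorial : ℕ) : ℚ) * ∑ p ∈ antidiagonal B.card, h p.1 p.2 =
      ∑ C ∈ B.powerset, ((C.card.factorial : ℕ) : ℚ) * (((B \ C).card.factorial : ℕ) : ℚ) *
        h C.card (B \ C).card := by
  have h1 : ∑ C ∈ B.powerset, ((C.card.factorial : ℕ) : ℚ) *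
      (((B \ C).card.factorial : ℕ) : ℚ) * h C.card (B \ C).card =
      ∑ C ∈ B.powerset, (fun j : ℕ => ((j.factorial : ℕ) : ℚ) *
        (((B.card - j).factorial : ℕ) : ℚ) * h j (B.card - j)) C.card := by
    apply Finset.sum_congr rfl
    intro C hC
    rw [Finset.mem_powerset] at hC
    rw [Finset.card_sdiff_of_subset hC]
  have h1' := Finset.sum_powerset_apply_card (fun j : ℕ => ((j.factorial : ℕ) : ℚ) *
        (((B.card - j).factorial : ℕ) : ℚ) * h j (B.card - j)) (x := B)
  rw [h1]
  beta_reduce at h1' ⊢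
  rw [h1', Finset.Nat.sum_antidiagonal_eq_sum_range_succ (fun i j => h i j), Finset.mul_sum]
  apply Finset.sum_congr rfl
  intro j hj
  rw [Finset.mem_range] at hj
  have h2 := Nat.choose_mul_factorial_mul_factorial (show j ≤ B.card by omega)
  have h3 : ((B.card.factorial : ℕ) : ℚ) = ((B.card.choose j : ℕ) : ℚ) *
      ((j.factorial : ℕ) : ℚ) * (((B.card - j).factorial : ℕ) : ℚ) := by
    exact_mod_cast h2.symm
  rw [nsmul_eq_mul, h3]
  ring

theorem regroup (S : Finset V) (f g : ℕ → Finset V → ℚ) :
    ∑ B ∈ S.powerset, ((B.card.factorial : ℕ) : ℚ) * ∑ p ∈ antidiagonal B.card,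
        ∑ T ∈ (S \ B).powerset, f p.1 T * g p.2 ((S \ B) \ T) =
      ∑ T ∈ S.powerset,
        (∑ C ∈ T.powerset, ((C.card.factorial : ℕ) : ℚ) * f C.card (T \ C)) *
        (∑ D ∈ (S \ T).powerset, ((D.card.factorial : ℕ) : ℚ) * g D.card ((S \ T) \ D)) := by
  have h1 : ∀ B ∈ S.powerset, ((B.card.factorial : ℕ) : ℚ) * ∑ p ∈ antidiagonal B.card,
        ∑ T ∈ (S \ B).powerset, f p.1 T * g p.2 ((S \ B) \ T) =
      ∑ C ∈ B.powerset, ∑ T ∈ (S \ B).powerset,
        ((C.card.factorial : ℕ) : ℚ) * (((B \ C).card.factorial : ℕ) : ℚ) *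
          (f C.card T * g (B \ C).card ((S \ B) \ T)) := by
    intro B _
    rw [fac_split B (fun i j => ∑ T ∈ (S \ B).powerset, f i T * g j ((S \ B) \ T))]
    apply Finset.sum_congr rfl
    intro C _
    rw [Finset.mul_sum]
  rw [Finset.sum_congr rfl h1]
  simp only [Finset.sum_mul_sum]
  simp only [Finset.sum_sigma']
  refine Finset.sum_bij' (fun x _ => ⟨x.2.2 ∪ x.2.1, x.2.1, x.1 \ x.2.1⟩)
    (fun y _ => ⟨y.2.1 ∪ y.2.2, y.2.1, y.1 \ y.2.1⟩) ?_ ?_ ?_ ?_ ?_
  · rintro ⟨B, C, T⟩ hx
    simp only [Finset.mem_sigma, Finset.mem_powerset] at hx ⊢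
    obtain ⟨hB, hC, hT⟩ := hx
    refine ⟨Finset.union_subset (hT.trans Finset.sdiff_subset) (hC.trans hB),
      Finset.subset_union_right, ?_⟩
    intro x hx
    rw [Finset.mem_sdiff] at hx
    rw [Finset.mem_sdiff, Finset.mem_union]
    refine ⟨hB hx.1, ?_⟩
    rintro (h | h)
    · exact (Finset.mem_sdiff.mp (hT h)).2 hx.1
    · exact hx.2 h
  · rintro ⟨T, C, D⟩ hy
    simp only [Finset.mem_sigma, Finset.mem_powerset] at hy ⊢
    obtain ⟨hT, hC, hD⟩ := hy
    refine ⟨Finset.union_subset (hC.trans hT) (hD.trans Finset.sdiff_subset),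
      Finset.subset_union_left, ?_⟩
    intro x hx
    rw [Finset.mem_sdiff] at hx
    rw [Finset.mem_sdiff, Finset.mem_union]
    refine ⟨hT hx.1, ?_⟩
    rintro (h | h)
    · exact hx.2 h
    · exact (Finset.mem_sdiff.mp (hD h)).2 hx.1
  · rintro ⟨B, C, T⟩ hx
    simp only [Finset.mem_sigma, Finset.mem_powerset] at hx
    obtain ⟨hB, hC, hT⟩ := hx
    have h2 : C ∪ B \ C = B := Finset.union_sdiff_of_subset hC
    have h3 : (T ∪ C) \ C = T := by
      rw [Finset.union_sdiff_right]
      apply Finset.sdiff_eq_self_of_disjoint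
      rw [Finset.disjoint_left]
      intro x hx hxC
      exact (Finset.mem_sdiff.mp (hT hx)).2 (hC hxC)
    simp only [h2, h3]
  · rintro ⟨T, C, D⟩ hy
    simp only [Finset.mem_sigma, Finset.mem_powerset] at hy
    obtain ⟨hT, hC, hD⟩ := hy
    have h2 : T \ C ∪ C = T := Finset.sdiff_union_of_subset hC
    have h3 : (C ∪ D) \ C = D := by
      rw [Finset.union_sdiff_left]
      apply Finset.sdiff_eq_self_of_disjoint
      rw [Finset.disjoint_left]
      intro x hx hxC
      exact (Finset.mem_sdiff.mp (hD hx)).2 (hC hxC)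
    simp only [h2, h3]
  · rintro ⟨B, C, T⟩ hx
    simp only [Finset.mem_sigma, Finset.mem_powerset] at hx
    obtain ⟨hB, hC, hT⟩ := hx
    have h3 : (T ∪ C) \ C = T := by
      rw [Finset.union_sdiff_right]
      apply Finset.sdiff_eq_self_of_disjoint
      rw [Finset.disjoint_left]
      intro x hx hxC
      exact (Finset.mem_sdiff.mp (hT hx)).2 (hC hxC)
    have h4 : (S \ (T ∪ C)) \ (B \ C) = (S \ B) \ T := by
      ext x
      simp only [Finset.mem_sdiff, Finset.mem_union]
      constructor
      · rintro ⟨⟨h1, h2⟩, h5⟩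
        rw [not_or] at h2
        refine ⟨⟨h1, fun hB => h5 ⟨hB, h2.2⟩⟩, h2.1⟩
      · rintro ⟨⟨h1, h2⟩, h5⟩
        refine ⟨⟨h1, ?_⟩, fun h => h2 h.1⟩
        rintro (h | h)
        · exact h5 h
        · exact h2 (hC h)
    simp only [h3, h4]
    ring

theorem U_mul_aux (w : V → ℤ) (n : ℕ) : ∀ (S : Finset V), S.card = n → ∀ F G : R, IsQS F →
    IsQS G → U w S (F * G) = ∑ T ∈ S.powerset, U w T F * U w (S \ T) G := by
  induction n using Nat.strong_induction_on with
  | _ n ih =>
    intro S hSn F G hF hG
    by_cases hS : S = ∅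
    · subst hS
      rw [U_empty, Finset.powerset_empty, Finset.sum_singleton, Finset.sdiff_empty, U_empty,
        U_empty, MvPowerSeries.coeff_zero_eq_constantCoeff_apply, map_mul]
      rfl
    · rcases lt_or_ge (wt w S) 0 with hw | hw
      · rw [U_neg w hS hw]
        symm
        apply Finset.sum_eq_zero
        intro T hT
        rw [Finset.mem_powerset] at hT
        have h1 := wt_sdiff w hT
        rcases lt_or_ge (wt w T) 0 with h2 | h2
        · rw [U_neg w _ h2, zero_mul]
          rintro rfl
          simp [wt] at h2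
        · have h3 : wt w (S \ T) < 0 := by omega
          rw [U_neg w _ h3, mul_zero]
          intro h4
          rw [h4] at h3
          simp [wt] at h3
      · have h1 := regroup S (fun k T => U w T (part k F)) (fun k T => U w T (part k G))
        have h2 : ∑ T ∈ S.powerset,
            (∑ C ∈ T.powerset, ((C.card.factorial : ℕ) : ℚ) * U w (T \ C) (part C.card F)) *
            (∑ D ∈ (S \ T).powerset, ((D.card.factorial : ℕ) : ℚ) *
              U w ((S \ T) \ D) (part D.card G)) = 0 := by
          apply Finset.sum_eq_zero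
          intro T hT
          rw [Finset.mem_powerset] at hT
          have h3 := wt_sdiff w hT
          by_cases hT0 : T = ∅
          · subst hT0
            rw [Finset.sdiff_empty, U_sum w hS hw hG, mul_zero]
          · rcases lt_or_ge (wt w T) 0 with h2 | h2
            · have h5 : 0 < wt w (S \ T) := by omega
              have h6 : S \ T ≠ ∅ := by
                intro h4
                rw [h4] at h5
                simp [wt] at h5
              rw [U_sum w h6 h5.le hG, mul_zero]
            · rw [U_sum w hT0 h2 hF, zero_mul]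
        beta_reduce at h1
        rw [h2] at h1
        have h3 : ∑ B ∈ S.powerset, ((B.card.factorial : ℕ) : ℚ) * ∑ p ∈ antidiagonal B.card,
            ∑ T ∈ (S \ B).powerset, U w T (part p.1 F) * U w ((S \ B) \ T) (part p.2 G) =
            (∑ T ∈ S.powerset, U w T F * U w (S \ T) G) +
            ∑ B ∈ S.powerset.erase ∅, ((B.card.factorial : ℕ) : ℚ) *
              U w (S \ B) (part B.card (F * G)) := by
          rw [← Finset.add_sum_erase S.powerset _ (Finset.empty_mem_powerset S)]
          congr 1
          · rw [Finset.card_empty, Finset.sdiff_empty, Nat.factorial_zero, Nat.cast_one, one_mul,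
              Finset.Nat.antidiagonal_zero, Finset.sum_singleton, part_zero_eq hF, part_zero_eq hG]
          · apply Finset.sum_congr rfl
            intro B hB
            rw [Finset.mem_erase, Finset.mem_powerset] at hB
            congr 1
            rw [part_mul]
            have hlt : (S \ B).card < n := by
              rw [← hSn]
              apply Finset.card_lt_card
              rw [Finset.ssubset_iff_of_subset Finset.sdiff_subset]
              obtain ⟨x, hx⟩ := Finset.nonempty_iff_ne_empty.mpr hB.1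
              exact ⟨x, hB.2 hx, by simp [hx]⟩
            have hsum : U w (S \ B) (∑ p ∈ antidiagonal B.card, part p.1 F * part p.2 G) =
                ∑ p ∈ antidiagonal B.card, U w (S \ B) (part p.1 F * part p.2 G) := by
              rw [← Uhom_apply, map_sum]
              rfl
            rw [hsum]
            apply Finset.sum_congr rfl
            intro p _
            rw [ih _ hlt _ rfl _ _ (part_isQS _ hF) (part_isQS _ hG)]
        rw [h3] at h1
        rw [U_nonneg w hS hw]
        linarith

theorem U_mul (w : V → ℤ) (S : Finset V) {F G : R} (hF : IsQS F) (hG : IsQS G) :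
    U w S (F * G) = ∑ T ∈ S.powerset, U w T F * U w (S \ T) G :=
  U_mul_aux w _ S rfl F G hF hG

/-- a weight of total zero whose proper nonempty partial sums do not vanish -/
def Generic [Fintype V] (w : V → ℤ) : Prop :=
  wt w univ = 0 ∧ ∀ T : Finset V, T ≠ ∅ → T ≠ univ → wt w T ≠ 0

/-- the functional kills products -/
theorem U_mul_zero [Fintype V] {w : V → ℤ} (hw : Generic w) {F G : R} (hF : IsQS F)
    (hG : IsQS G) (hF0 : MvPowerSeries.coeff 0 F = 0) (hG0 : MvPowerSeries.coeff 0 G = 0) :
    U w univ (F * G) = 0 := by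
  rw [U_mul w _ hF hG]
  apply Finset.sum_eq_zero
  intro T hT
  by_cases h1 : T = ∅
  · rw [h1, U_empty, hF0, zero_mul]
  · by_cases h2 : T = univ
    · rw [h2, Finset.sdiff_self, U_empty, hG0, mul_zero]
    · have h3 := hw.2 T h1 h2
      have h4 := wt_sdiff w (Finset.subset_univ T)
      rw [hw.1] at h4
      rcases lt_or_ge (wt w T) 0 with h5 | h5
      · rw [U_neg w h1 h5, zero_mul]
      · have h6 : wt w (univ \ T) < 0 := by omega
        rw [U_neg w _ h6, mul_zero]
        intro h7
        rw [h7] at h6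
        simp [wt] at h6

end Pool.Agent.Lib.MP_5bc52d_co.Cyc
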