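import Mathlib
import Pool.Agent.Lib.MP_5bc52d_co.Cyc.UFun

/-!
# Evaluation of the half-space functionals on generating functions of weak inequalities
-/

open Finset

namespace Pool.Agent.Lib.MP_5bc52d_co.Cyc

section ct

variable {V : Type*}

/-- the exponent of the monomial of `f` on `S` -/
noncomputable def ct (S : Finset V) (f : V → ℕ) : ℕ →₀ ℕ := ∑ v ∈ S, Finsupp.single (f v) 1

/-- the product of the factorials of the exponents -/
noncomputable def fac (m : ℕ →₀ ℕ) : ℚ := m.prod (fun _ k => ((k.factorial : ℕ) : ℚ))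

theorem fac_sh (k : ℕ) (m : ℕ →₀ ℕ) : fac (sh k m) = ((k.factorial : ℕ) : ℚ) * fac m := by
  rw [fac, sh, Finsupp.prod_add_index_of_disjoint, Finsupp.prod_single_index,
    Finsupp.prod_mapDomain_index_inj Nat.succ_injective]
  · rfl
  · simp
  · rw [Finset.disjoint_left]
    intro i hi hi'
    have h1 : i = 0 := by
      have := Finsupp.support_single_subset hi
      simpa using this
    have h2 := Finsupp.mapDomain_support hi'
    rw [Finset.mem_image] at h2
    obtain ⟨j, _, hj⟩ := h2
    omega

theorem ct_apply (S : Finset V) (f : V → ℕ) (i : ℕ) :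
    ct S f i = (S.filter (fun p => f p = i)).card := by
  rw [ct, Finsupp.finsetSum_apply, Finset.card_filter]
  apply Finset.sum_congr rfl
  intro p _
  rw [Finsupp.single_apply]

variable [DecidableEq V]

/-- extension by the smallest value on `B` -/
def ext (B : Finset V) (f : V → ℕ) : V → ℕ := fun v => if v ∈ B then 0 else f v + 1

theorem ct_ext {S B : Finset V} (hB : B ⊆ S) (f : V → ℕ) :
    ct S (ext B f) = sh B.card (ct (S \ B) f) := by
  rw [ct, ← Finset.sum_sdiff hB, sh, ct, Finsupp.mapDomain_finsetSum, add_comm]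
  congr 1
  · rw [Finset.sum_congr rfl (g := fun _ => Finsupp.single 0 1)]
    · rw [Finset.sum_const, Finsupp.smul_single, smul_eq_mul, mul_one]
    · intro v hv
      rw [ext, if_pos hv]
  · apply Finset.sum_congr rfl
    intro v hv
    rw [Finset.mem_sdiff] at hv
    rw [ext, if_neg hv.2, Finsupp.mapDomain_single]

end ct

section L

variable {V : Type*} [DecidableEq V]

theorem card_sdiff_lt {S B : Finset V} (hB : B ∈ S.powerset.erase ∅) : (S \ B).card < S.card := by
  rw [Finset.mem_erase, Finset.mem_powerset] at hB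
  apply Finset.card_lt_card
  rw [Finset.ssubset_iff_of_subset Finset.sdiff_subset]
  obtain ⟨x, hx⟩ := Finset.nonempty_iff_ne_empty.mpr hB.1
  exact ⟨x, hB.2 hx, by simp [hx]⟩

/-- the functional on functions of maps -/
noncomputable def L (w : V → ℤ) (S : Finset V) (Φ : (V → ℕ) → ℚ) : ℚ :=
  if S = ∅ then Φ (fun _ => 0)
  else if 0 ≤ wt w S then
    - ∑ B ∈ (S.powerset.erase ∅).attach, L w (S \ B.1) (fun f => Φ (ext B.1 f))
  else 0
termination_by S.card
decreasing_by exact card_sdiff_lt B.2

theorem L_empty (w : V → ℤ) (Φ : (V → ℕ) → ℚ) : L w ∅ Φ = Φ (fun _ => 0) := by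
  rw [L, if_pos rfl]

theorem L_neg (w : V → ℤ) {S : Finset V} (hS : S ≠ ∅) (h : wt w S < 0) (Φ : (V → ℕ) → ℚ) :
    L w S Φ = 0 := by
  rw [L, if_neg hS, if_neg (not_le.mpr h)]

theorem L_nonneg (w : V → ℤ) {S : Finset V} (hS : S ≠ ∅) (h : 0 ≤ wt w S)
    (Φ : (V → ℕ) → ℚ) :
    L w S Φ = - ∑ B ∈ S.powerset.erase ∅, L w (S \ B) (fun f => Φ (ext B f)) := by
  rw [L, if_neg hS, if_pos h]
  congr 1
  exact Finset.sum_attach (S.powerset.erase ∅) (fun B => L w (S \ B) (fun f => Φ (ext B f)))

theorem L_lin_aux (w : V → ℤ) (n : ℕ) : ∀ (S : Finset V), S.card = n →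
    ∀ (c : ℚ) (Φ Ψ : (V → ℕ) → ℚ),
      L w S (fun f => c * Φ f + Ψ f) = c * L w S Φ + L w S Ψ := by
  induction n using Nat.strong_induction_on with
  | _ n ih =>
    intro S hSn c Φ Ψ
    by_cases hS : S = ∅
    · subst hS
      rw [L_empty, L_empty, L_empty]
    · rcases lt_or_ge (wt w S) 0 with hw | hw
      · rw [L_neg w hS hw, L_neg w hS hw, L_neg w hS hw, mul_zero, add_zero]
      · rw [L_nonneg w hS hw, L_nonneg w hS hw, L_nonneg w hS hw, mul_neg, ← neg_add,
          Finset.mul_sum, ← Finset.sum_add_distrib]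
        congr 1
        apply Finset.sum_congr rfl
        intro B hB
        rw [ih _ (hSn ▸ card_sdiff_lt hB) _ rfl]

theorem L_lin (w : V → ℤ) (S : Finset V) (c : ℚ) (Φ Ψ : (V → ℕ) → ℚ) :
    L w S (fun f => c * Φ f + Ψ f) = c * L w S Φ + L w S Ψ := L_lin_aux w _ S rfl c Φ Ψ

theorem L_zero (w : V → ℤ) (S : Finset V) : L w S (fun _ => 0) = 0 := by
  have := L_lin w S (-1) (fun _ => 0) (fun _ => 0)
  simp only [mul_zero, add_zero] at this
  linarith

theorem L_smul (w : V → ℤ) (S : Finset V) (c : ℚ) (Φ : (V → ℕ) → ℚ) :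
    L w S (fun f => c * Φ f) = c * L w S Φ := by
  have := L_lin w S c Φ (fun _ => 0)
  simp only [add_zero, L_zero] at this
  exact this

theorem L_sum {ι : Type*} (w : V → ℤ) (S : Finset V) (s : Finset ι)
    (Φ : ι → (V → ℕ) → ℚ) :
    L w S (fun f => ∑ i ∈ s, Φ i f) = ∑ i ∈ s, L w S (Φ i) := by
  classical
  induction s using Finset.induction_on with
  | empty => simp [L_zero]
  | insert a s ha ih =>
    rw [Finset.sum_insert ha, ← ih]
    have := L_lin w S 1 (Φ a) (fun f => ∑ i ∈ s, Φ i f)
    rw [one_mul] at this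
    rw [← this]
    congr 1
    funext f
    rw [Finset.sum_insert ha, one_mul]

theorem U_eq_L_aux (w : V → ℤ) (n : ℕ) : ∀ (S : Finset V), S.card = n →
    ∀ (F : R) (Φ : (V → ℕ) → ℚ),
      (∀ f, Φ f = fac (ct S f) * MvPowerSeries.coeff (ct S f) F) → U w S F = L w S Φ := by
  induction n using Nat.strong_induction_on with
  | _ n ih =>
    intro S hSn F Φ hΦ
    by_cases hS : S = ∅
    · subst hS
      rw [U_empty, L_empty, hΦ]
      simp [ct, fac]
    · rcases lt_or_ge (wt w S) 0 with hw | hw
      · rw [U_neg w hS hw, L_neg w hS hw]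
      · rw [U_nonneg w hS hw, L_nonneg w hS hw]
        congr 1
        apply Finset.sum_congr rfl
        intro B hB
        have hBS : B ⊆ S := by
          rw [Finset.mem_erase, Finset.mem_powerset] at hB
          exact hB.2
        rw [ih _ (hSn ▸ card_sdiff_lt hB) _ rfl (part B.card F)
          (fun f => fac (ct (S \ B) f) * MvPowerSeries.coeff (ct (S \ B) f) (part B.card F))
          (fun _ => rfl), ← L_smul]
        congr 1
        funext f
        rw [hΦ, ct_ext hBS, fac_sh, coeff_part]
        ring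

theorem U_eq_L (w : V → ℤ) (S : Finset V) (F : R) (Φ : (V → ℕ) → ℚ)
    (hΦ : ∀ f, Φ f = fac (ct S f) * MvPowerSeries.coeff (ct S f) F) : U w S F = L w S Φ :=
  U_eq_L_aux w _ S rfl F Φ hΦ

end L

section u

variable {V : Type*} [DecidableEq V]

open scoped Classical in
/-- the signed number of chains -/
noncomputable def u (w : V → ℤ) (r : V → V → Prop) (S : Finset V) : ℚ :=
  if S = ∅ then 1
  else if 0 ≤ wt w S then
    - ∑ B ∈ (S.powerset.erase ∅).attach,
      (if (∀ a ∈ S \ B.1, ∀ b ∈ S, r a b → b ∈ S \ B.1) then u w r (S \ B.1) else 0)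
  else 0
termination_by S.card
decreasing_by exact card_sdiff_lt B.2

theorem u_empty (w : V → ℤ) (r : V → V → Prop) : u w r ∅ = 1 := by
  rw [u, if_pos rfl]

theorem u_neg (w : V → ℤ) (r : V → V → Prop) {S : Finset V} (hS : S ≠ ∅) (h : wt w S < 0) :
    u w r S = 0 := by
  rw [u, if_neg hS, if_neg (not_le.mpr h)]

open scoped Classical in
theorem u_nonneg (w : V → ℤ) (r : V → V → Prop) {S : Finset V} (hS : S ≠ ∅)
    (h : 0 ≤ wt w S) :
    u w r S = - ∑ B ∈ S.powerset.erase ∅,
      (if (∀ a ∈ S \ B, ∀ b ∈ S, r a b → b ∈ S \ B) then u w r (S \ B) else 0) := by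
  rw [u, if_neg hS, if_pos h]
  congr 1
  exact Finset.sum_attach (S.powerset.erase ∅)
    (fun B => (if (∀ a ∈ S \ B, ∀ b ∈ S, r a b → b ∈ S \ B) then u w r (S \ B) else 0))

open scoped Classical in
/-- the indicator of the monotone maps on `S` -/
noncomputable def ind (r : V → V → Prop) (S : Finset V) (f : V → ℕ) : ℚ :=
  if (∀ a ∈ S, ∀ b ∈ S, r a b → f a ≤ f b) then 1 else 0

open scoped Classical in
theorem ind_ext (r : V → V → Prop) (S B : Finset V) (hB : B ⊆ S) (f : V → ℕ) :
    ind r S (ext B f) =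
      (if (∀ a ∈ S \ B, ∀ b ∈ S, r a b → b ∈ S \ B) then 1 else 0) * ind r (S \ B) f := by
  rw [ind, ind]
  by_cases h : ∀ a ∈ S \ B, ∀ b ∈ S, r a b → b ∈ S \ B
  · rw [if_pos h, one_mul]
    congr 1
    apply propext
    constructor
    · intro h1 a ha b hb hab
      have h2 := h1 a (Finset.mem_sdiff.mp ha).1 b (Finset.mem_sdiff.mp hb).1 hab
      rw [ext, ext, if_neg (Finset.mem_sdiff.mp ha).2, if_neg (Finset.mem_sdiff.mp hb).2] at h2
      omega
    · intro h1 a ha b hb hab
      by_cases haB : a ∈ B
      · rw [ext, if_pos haB]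
        omega
      · have ha' : a ∈ S \ B := Finset.mem_sdiff.mpr ⟨ha, haB⟩
        have hb' := h a ha' b hb hab
        rw [ext, ext, if_neg haB, if_neg (Finset.mem_sdiff.mp hb').2]
        have := h1 a ha' b hb' hab
        omega
  · rw [if_neg h, zero_mul, if_neg]
    intro h1
    apply h
    intro a ha b hb hab
    rw [Finset.mem_sdiff]
    refine ⟨hb, fun hbB => ?_⟩
    have h2 := h1 a (Finset.mem_sdiff.mp ha).1 b hb hab
    rw [ext, ext, if_neg (Finset.mem_sdiff.mp ha).2, if_pos hbB] at h2
    omega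

theorem L_ind_aux (w : V → ℤ) (r : V → V → Prop) (n : ℕ) : ∀ (S : Finset V), S.card = n →
    L w S (ind r S) = u w r S := by
  classical
  induction n using Nat.strong_induction_on with
  | _ n ih =>
    intro S hSn
    by_cases hS : S = ∅
    · subst hS
      rw [L_empty, u_empty, ind, if_pos]
      simp
    · rcases lt_or_ge (wt w S) 0 with hw | hw
      · rw [L_neg w hS hw, u_neg w r hS hw]
      · rw [L_nonneg w hS hw, u_nonneg w r hS hw]
        congr 1
        apply Finset.sum_congr rfl
        intro B hB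
        have hBS : B ⊆ S := by
          rw [Finset.mem_erase, Finset.mem_powerset] at hB
          exact hB.2
        have h1 : (fun f => ind r S (ext B f)) = fun f =>
            (if (∀ a ∈ S \ B, ∀ b ∈ S, r a b → b ∈ S \ B) then (1 : ℚ) else 0) *
              ind r (S \ B) f := by
          funext f
          exact ind_ext r S B hBS f
        rw [h1, L_smul, ih _ (hSn ▸ card_sdiff_lt hB) _ rfl]
        split_ifs <;> simp

theorem L_ind (w : V → ℤ) (r : V → V → Prop) (S : Finset V) :
    L w S (ind r S) = u w r S := L_ind_aux w r _ S rfl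

end u

section chain

variable {V : Type*} [Fintype V] [DecidableEq V]

/-- up-closed sets -/
def Up (r : V → V → Prop) (F : Finset V) : Prop := ∀ a ∈ F, ∀ b, r a b → b ∈ F

theorem Up.inter {r : V → V → Prop} {F G : Finset V} (hF : Up r F) (hG : Up r G) :
    Up r (F ∩ G) := fun a ha b hab =>
  Finset.mem_inter.mpr ⟨hF a (Finset.mem_inter.mp ha).1 b hab,
    hG a (Finset.mem_inter.mp ha).2 b hab⟩

theorem Up.union {r : V → V → Prop} {F G : Finset V} (hF : Up r F) (hG : Up r G) :
    Up r (F ∪ G) := fun a ha b hab => by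
  rcases Finset.mem_union.mp ha with h | h
  · exact Finset.mem_union_left _ (hF a h b hab)
  · exact Finset.mem_union_right _ (hG a h b hab)

open scoped Classical in
theorem u_sum (w : V → ℤ) (r : V → V → Prop) {S : Finset V} (hup : Up r S) (hS : S ≠ ∅)
    (h : 0 ≤ wt w S) : ∑ F ∈ S.powerset with Up r F, u w r F = 0 := by
  have h1 : ∑ F ∈ S.powerset with Up r F, u w r F =
      ∑ F ∈ S.powerset, (if Up r F then u w r F else 0) := by
    rw [Finset.sum_filter]
  have h2 : ∑ F ∈ S.powerset, (if Up r F then u w r F else 0) =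
      ∑ B ∈ S.powerset, (if Up r (S \ B) then u w r (S \ B) else 0) := by
    refine Finset.sum_bij' (fun F _ => S \ F) (fun B _ => S \ B) ?_ ?_ ?_ ?_ ?_
    · intro F _; exact Finset.mem_powerset.mpr Finset.sdiff_subset
    · intro F _; exact Finset.mem_powerset.mpr Finset.sdiff_subset
    · intro F hF
      exact Finset.sdiff_sdiff_eq_self (Finset.mem_powerset.mp hF)
    · intro F hF
      exact Finset.sdiff_sdiff_eq_self (Finset.mem_powerset.mp hF)
    · intro F hF
      rw [Finset.sdiff_sdiff_eq_self (Finset.mem_powerset.mp hF)]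
  rw [h1, h2, ← Finset.add_sum_erase S.powerset _ (Finset.empty_mem_powerset S),
    Finset.sdiff_empty, if_pos hup, u_nonneg w r hS h]
  rw [neg_add_eq_zero]
  apply Finset.sum_congr rfl
  intro B _
  congr 1
  apply propext
  constructor
  · intro h3 a ha b hab
    exact h3 a ha b (hup a (Finset.mem_sdiff.mp ha).1 b hab) hab
  · intro h3 a ha b _ hab
    exact h3 a ha b hab

/-- all proper nonempty up-closed sets have negative weight -/
def K (r : V → V → Prop) (w : V → ℤ) : Prop :=
  ∀ F : Finset V, F ≠ ∅ → F ≠ univ → Up r F → wt w F < 0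

theorem u_of_K [Nonempty V] {w : V → ℤ} {r : V → V → Prop} (hw : wt w univ = 0)
    (hK : K r w) : u w r univ = -1 := by
  classical
  have huniv : (univ : Finset V) ≠ ∅ := Finset.univ_nonempty.ne_empty
  have hup : Up r (univ : Finset V) := fun _ _ b _ => Finset.mem_univ b
  have hup0 : Up r (∅ : Finset V) := fun a ha => absurd ha (Finset.notMem_empty a)
  have h1 := u_sum w r hup huniv hw.ge
  have h2 : ((univ : Finset V).powerset.filter (fun F => Up r F)) =
      insert univ (insert ∅ (((univ : Finset V).powerset.filter (fun F => Up r F)).filter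
        (fun F => F ≠ ∅ ∧ F ≠ univ))) := by
    ext F
    simp only [Finset.mem_filter, Finset.mem_insert, Finset.mem_powerset]
    constructor
    · rintro ⟨h3, h4⟩
      by_cases h5 : F = univ
      · exact Or.inl h5
      · by_cases h6 : F = ∅
        · exact Or.inr (Or.inl h6)
        · exact Or.inr (Or.inr ⟨⟨h3, h4⟩, h6, h5⟩)
    · rintro (rfl | rfl | h3)
      · exact ⟨Finset.Subset.refl _, hup⟩
      · exact ⟨Finset.empty_subset _, hup0⟩
      · exact h3.1
  rw [h2, Finset.sum_insert, Finset.sum_insert, u_empty, Finset.sum_eq_zero] at h1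
  · linarith
  · intro F hF
    simp only [Finset.mem_filter] at hF
    exact u_neg w r hF.2.1 (hK F hF.2.1 hF.2.2 hF.1.2)
  · simp
  · simp only [Finset.mem_insert, Finset.mem_filter, not_or]
    exact ⟨huniv, by simp⟩

theorem wt_inter_add_union (w : V → ℤ) (S A : Finset V) :
    wt w (S ∩ A) + wt w (S ∪ A) = wt w S + wt w A := by
  rw [wt, wt, wt, wt, add_comm]
  exact Finset.sum_union_inter

theorem u_of_not_K {w : V → ℤ} {r : V → V → Prop} (hw : Generic w)
    (hK : ¬ K r w) : u w r univ = 0 := by
  classical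
  unfold K at hK
  push Not at hK
  obtain ⟨F₀, hF0, hF1, hF2, hF3⟩ := hK
  have hF4 : 0 < wt w F₀ := lt_of_le_of_ne hF3 (Ne.symm (hw.2 F₀ hF0.ne_empty hF1))
  obtain ⟨A, hA, hmax⟩ := Finset.exists_max_image
    ((univ : Finset (Finset V)).filter (fun F => Up r F)) (fun F => wt w F)
    ⟨F₀, Finset.mem_filter.mpr ⟨Finset.mem_univ _, hF2⟩⟩
  have hAup : Up r A := (Finset.mem_filter.mp hA).2
  have hmax' : ∀ F, Up r F → wt w F ≤ wt w A := fun F hF =>
    hmax F (Finset.mem_filter.mpr ⟨Finset.mem_univ _, hF⟩)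
  have hA1 : 0 < wt w A := lt_of_lt_of_le hF4 (hmax' F₀ hF2)
  have hA0 : A ≠ ∅ := by
    rintro rfl
    simp [wt] at hA1
  have hA2 : A ≠ univ := by
    rintro rfl
    rw [hw.1] at hA1
    exact lt_irrefl _ hA1
  have main : ∀ n : ℕ, ∀ S : Finset V, S.card = n → Up r S → ¬ S ⊆ A → 0 ≤ wt w S →
      u w r S = 0 := by
    intro n
    induction n using Nat.strong_induction_on with
    | _ n ih =>
      intro S hSn hSup hSA hSw
      have hS0 : S ≠ ∅ := by
        rintro rfl
        exact hSA (Finset.empty_subset _)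
      have h1 := u_sum w r hSup hS0 hSw
      have h2 : 0 ≤ wt w (S ∩ A) := by
        have h3 := wt_inter_add_union w S A
        have h4 := hmax' _ (hSup.union hAup)
        omega
      have h3 : S ∩ A ≠ ∅ := by
        intro h4
        have h5 := wt_inter_add_union w S A
        have h6 := hmax' _ (hSup.union hAup)
        rw [h4] at h5
        have h7 : wt w (∅ : Finset V) = 0 := by simp [wt]
        have h8 : wt w S = 0 := by omega
        by_cases h9 : S = univ
        · rw [h9, Finset.univ_inter] at h4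
          exact hA0 h4
        · exact hw.2 S hS0 h9 h8
      have h4 := u_sum w r (hSup.inter hAup) h3 h2
      have h5 : (S.powerset.filter (fun F => Up r F)) =
          insert S (((S ∩ A).powerset.filter (fun F => Up r F)) ∪
            (S.powerset.filter (fun F => Up r F)).filter (fun F => F ≠ S ∧ ¬ F ⊆ A)) := by
        ext F
        simp only [Finset.mem_filter, Finset.mem_insert, Finset.mem_union,
          Finset.mem_powerset, Finset.subset_inter_iff]
        constructor
        · rintro ⟨h6, h7⟩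
          by_cases h8 : F = S
          · exact Or.inl h8
          · by_cases h9 : F ⊆ A
            · exact Or.inr (Or.inl ⟨⟨h6, h9⟩, h7⟩)
            · exact Or.inr (Or.inr ⟨⟨h6, h7⟩, h8, h9⟩)
        · rintro (rfl | h6 | h6)
          · exact ⟨Finset.Subset.refl _, hSup⟩
          · exact ⟨h6.1.1, h6.2⟩
          · exact h6.1
      rw [h5, Finset.sum_insert, Finset.sum_union, h4, Finset.sum_eq_zero, add_zero,
        add_zero] at h1
      · exact h1
      · intro F hF
        simp only [Finset.mem_filter, Finset.mem_powerset] at hF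
        obtain ⟨⟨h6, h7⟩, h8, h9⟩ := hF
        rcases lt_or_ge (wt w F) 0 with h10 | h10
        · apply u_neg w r _ h10
          rintro rfl
          exact h9 (Finset.empty_subset _)
        · apply ih F.card _ F rfl h7 h9 h10
          rw [← hSn]
          exact Finset.card_lt_card (lt_of_le_of_ne h6 h8)
      · rw [Finset.disjoint_left]
        intro F hF hF'
        simp only [Finset.mem_filter, Finset.mem_powerset, Finset.subset_inter_iff] at hF hF'
        exact hF'.2.2 hF.1.2
      · simp only [Finset.mem_union, Finset.mem_filter, Finset.mem_powerset,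
          Finset.subset_inter_iff, not_or]
        exact ⟨fun h => hSA h.1.2, fun h => h.2.1 rfl⟩
  apply main _ univ rfl (fun _ _ b _ => Finset.mem_univ b) _ hw.1.ge
  intro h
  exact hA2 (Finset.univ_subset_iff.mp h)

end chain

end Pool.Agent.Lib.MP_5bc52d_co.Cyc
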