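import Mathlib
import Pool.Agent.Lib.MP_5bc52d_co.Cyc.Eval
import Pool.Agent.Lib.MP_5bc52d_co.Cyc.Deg
import Pool.Agent.Lib.MP_5bc52d_co.Cyc.Arc

/-!
# Generating functions of predicates on maps
-/

open Finset

set_option linter.unusedSectionVars false

namespace Pool.Agent.Lib.MP_5bc52d_co.Cyc

variable {V : Type*} [Fintype V] [DecidableEq V]

theorem mem_support_ct {S : Finset V} {f : V → ℕ} {v : V} (hv : v ∈ S) :
    f v ∈ (ct S f).support := by
  rw [Finsupp.mem_support_iff, ct_apply]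
  have h : v ∈ S.filter (fun q => f q = f v) := Finset.mem_filter.mpr ⟨hv, rfl⟩
  exact (Finset.card_pos.mpr ⟨v, h⟩).ne'

/-- the maps on `S`, extended by zero, with exponent `m` -/
noncomputable def maps (S : Finset V) (m : ℕ →₀ ℕ) : Finset (V → ℕ) :=
  (Fintype.piFinset (fun _ : V => insert 0 m.support)).filter
    (fun f => (∀ v, v ∉ S → f v = 0) ∧ ct S f = m)

theorem mem_maps {S : Finset V} {m : ℕ →₀ ℕ} {f : V → ℕ} :
    f ∈ maps S m ↔ (∀ v, v ∉ S → f v = 0) ∧ ct S f = m := by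
  rw [maps, Finset.mem_filter, Fintype.mem_piFinset]
  constructor
  · exact fun h => h.2
  · intro h
    refine ⟨fun v => ?_, h⟩
    rw [Finset.mem_insert]
    by_cases hv : v ∈ S
    · right
      rw [← h.2]
      exact mem_support_ct hv
    · exact Or.inl (h.1 v hv)

open scoped Classical in
/-- the generating function of a predicate -/
noncomputable def GP (S : Finset V) (P : (V → ℕ) → Prop) : R :=
  fun m => (((maps S m).filter P).card : ℚ)

open scoped Classical in
theorem coeff_GP (S : Finset V) (P : (V → ℕ) → Prop) (m : ℕ →₀ ℕ) :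
    MvPowerSeries.coeff m (GP S P) = (((maps S m).filter P).card : ℚ) := rfl

theorem deg_ct (S : Finset V) (f : V → ℕ) : deg (ct S f) = S.card := by
  rw [deg, ct, ← Finsupp.sum_finsetSum_index (by simp) (by simp)]
  simp

theorem GP_deg {S : Finset V} {P : (V → ℕ) → Prop} {m : ℕ →₀ ℕ}
    (h : MvPowerSeries.coeff m (GP S P) ≠ 0) : deg m = S.card := by
  classical
  rw [coeff_GP] at h
  have h1 : ((maps S m).filter P).card ≠ 0 := fun h2 => h (by rw [h2]; simp)
  obtain ⟨f, hf⟩ := Finset.card_pos.mp (Nat.pos_of_ne_zero h1)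
  rw [Finset.mem_filter, mem_maps] at hf
  rw [← hf.1.2, deg_ct]

theorem GP_coeff_zero {S : Finset V} {P : (V → ℕ) → Prop} (hS : S ≠ ∅) :
    MvPowerSeries.coeff 0 (GP S P) = 0 := by
  by_contra h
  have h1 := GP_deg h
  rw [deg_zero] at h1
  exact hS (Finset.card_eq_zero.mp h1.symm)

theorem GP_false {S : Finset V} {P : (V → ℕ) → Prop} (h : ∀ f, ¬ P f) : GP S P = 0 := by
  classical
  ext m
  rw [coeff_GP, Finset.filter_false_of_mem (fun f _ => h f)]
  simp

theorem GP_congr {S : Finset V} {P P' : (V → ℕ) → Prop} (h : ∀ f, P f ↔ P' f) :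
    GP S P = GP S P' := by
  have : P = P' := funext fun f => propext (h f)
  rw [this]

theorem GP_add {S : Finset V} {P P₁ P₂ : (V → ℕ) → Prop} (h : ∀ f, P f ↔ (P₁ f ∨ P₂ f))
    (h' : ∀ f, ¬ (P₁ f ∧ P₂ f)) : GP S P₁ + GP S P₂ = GP S P := by
  classical
  ext m
  rw [map_add, coeff_GP, coeff_GP, coeff_GP]
  have h1 : (maps S m).filter P = (maps S m).filter P₁ ∪ (maps S m).filter P₂ := by
    ext f
    simp only [Finset.mem_filter, Finset.mem_union, h]
    tauto
  rw [h1, Finset.card_union_of_disjoint]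
  · push_cast
    rfl
  · rw [Finset.disjoint_left]
    intro f h2 h3
    exact h' f ⟨(Finset.mem_filter.mp h2).2, (Finset.mem_filter.mp h3).2⟩

/-- the predicate depends only on the relative order of the values -/
def Inv (P : (V → ℕ) → Prop) : Prop := ∀ (f : V → ℕ) (g : ℕ → ℕ), StrictMono g → (P (g ∘ f) ↔ P f)

/-- the predicate depends only on the values on `S` -/
def On (S : Finset V) (P : (V → ℕ) → Prop) : Prop :=
  ∀ f f' : V → ℕ, (∀ v ∈ S, f v = f' v) → (P f ↔ P f')

theorem GP_isQS {S : Finset V} {P : (V → ℕ) → Prop} (hI : Inv P) (hO : On S P) :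
    IsQS (GP S P) := by
  classical
  refine ⟨⟨S.card, fun m hm => ?_⟩, fun m g hg => ?_⟩
  · by_contra h
    have h1 := GP_deg h
    rw [deg] at h1
    omega
  · rw [coeff_GP, coeff_GP]
    congr 1
    symm
    have hct : ∀ f : V → ℕ, ct S (fun v => if v ∈ S then g (f v) else 0) =
        Finsupp.mapDomain g (ct S f) := by
      intro f
      rw [ct, ct, Finsupp.mapDomain_finsetSum]
      apply Finset.sum_congr rfl
      intro p hp
      rw [if_pos hp, Finsupp.mapDomain_single]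
    refine Finset.card_bij (fun f _ => fun v => if v ∈ S then g (f v) else 0) ?_ ?_ ?_
    · intro f hf
      rw [Finset.mem_filter, mem_maps] at hf ⊢
      refine ⟨⟨fun v hv => if_neg hv, ?_⟩, ?_⟩
      · rw [hct, hf.1.2]
      · exact (hO _ (g ∘ f) (fun v hv => if_pos hv)).mpr ((hI f g hg).mpr hf.2)
    · intro f hf f' hf' h
      rw [Finset.mem_filter, mem_maps] at hf hf'
      funext v
      by_cases hv : v ∈ S
      · have := congrFun h v
        simp only [if_pos hv] at this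
        exact hg.injective this
      · rw [hf.1.1 v hv, hf'.1.1 v hv]
    · intro f hf
      rw [Finset.mem_filter, mem_maps] at hf
      have hrange : ∀ v, ∃ i, v ∈ S → g i = f v := by
        intro v
        by_cases hv : v ∈ S
        · have h1 : f v ∈ (Finsupp.mapDomain g m).support := by
            rw [← hf.1.2]; exact mem_support_ct hv
          have h2 := Finsupp.mapDomain_support h1
          rw [Finset.mem_image] at h2
          obtain ⟨i, _, hi⟩ := h2
          exact ⟨i, fun _ => hi⟩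
        · exact ⟨0, fun h => absurd h hv⟩
      choose f' hf' using hrange
      have hfeq : (fun v => if v ∈ S then g (if v ∈ S then f' v else 0) else 0) = f := by
        funext v
        by_cases hv : v ∈ S
        · simp only [if_pos hv]; exact hf' v hv
        · simp only [if_neg hv]; exact (hf.1.1 v hv).symm
      refine ⟨fun v => if v ∈ S then f' v else 0, ?_, hfeq⟩
      rw [Finset.mem_filter, mem_maps]
      refine ⟨⟨fun v hv => if_neg hv, ?_⟩, ?_⟩
      · apply Finsupp.mapDomain_injective hg.injective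
        rw [← hct, hfeq, hf.1.2]
      · rw [← hI _ g hg]
        rw [hO _ f]
        · exact hf.2
        · intro v hv
          rw [Function.comp_apply]
          beta_reduce
          rw [if_pos hv, hf' v hv]

theorem ct_union {S₁ S₂ : Finset V} (hd : Disjoint S₁ S₂) (f : V → ℕ) :
    ct (S₁ ∪ S₂) f = ct S₁ f + ct S₂ f := by
  rw [ct, ct, ct, Finset.sum_union hd]

theorem ct_congr {S : Finset V} {f f' : V → ℕ} (h : ∀ v ∈ S, f v = f' v) : ct S f = ct S f' := by
  rw [ct, ct]
  apply Finset.sum_congr rfl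
  intro v hv
  rw [h v hv]

theorem GP_mul {S₁ S₂ : Finset V} (hd : Disjoint S₁ S₂) {P P₁ P₂ : (V → ℕ) → Prop}
    (h₁ : On S₁ P₁) (h₂ : On S₂ P₂) (hP : ∀ f, P f ↔ (P₁ f ∧ P₂ f)) :
    GP (S₁ ∪ S₂) P = GP S₁ P₁ * GP S₂ P₂ := by
  classical
  ext m
  rw [MvPowerSeries.coeff_mul, coeff_GP]
  simp only [coeff_GP]
  have h1 : ∀ p ∈ antidiagonal m, ((((maps S₁ p.1).filter P₁).card : ℕ) : ℚ) *
      ((((maps S₂ p.2).filter P₂).card : ℕ) : ℚ) =
      (((((maps S₁ p.1).filter P₁) ×ˢ ((maps S₂ p.2).filter P₂)).card : ℕ) : ℚ) := by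
    intro p _
    rw [Finset.card_product]
    push_cast
    rfl
  rw [Finset.sum_congr rfl h1, ← Nat.cast_sum, ← Finset.card_sigma]
  congr 1
  refine Finset.card_bij' (fun f _ => (⟨(ct S₁ f, ct S₂ f),
      (fun v => if v ∈ S₁ then f v else 0, fun v => if v ∈ S₂ then f v else 0)⟩ :
        Σ _ : (ℕ →₀ ℕ) × (ℕ →₀ ℕ), (V → ℕ) × (V → ℕ)))
    (fun x _ => fun v => if v ∈ S₁ then x.2.1 v else x.2.2 v) ?_ ?_ ?_ ?_
  · intro f hf
    rw [Finset.mem_filter, mem_maps, hP] at hf
    rw [Finset.mem_sigma, Finset.mem_product, Finset.mem_filter, Finset.mem_filter, mem_maps,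
      mem_maps, HasAntidiagonal.mem_antidiagonal]
    refine ⟨?_, ⟨⟨fun v hv => if_neg hv, ?_⟩, ?_⟩, ⟨fun v hv => if_neg hv, ?_⟩, ?_⟩
    · rw [← hf.1.2, ct_union hd]
    · exact ct_congr (fun v hv => if_pos hv)
    · exact (h₁ _ f (fun v hv => if_pos hv)).mpr hf.2.1
    · exact ct_congr (fun v hv => if_pos hv)
    · exact (h₂ _ f (fun v hv => if_pos hv)).mpr hf.2.2
  · rintro ⟨⟨p, q⟩, ⟨f₁, f₂⟩⟩ hx
    rw [Finset.mem_sigma, Finset.mem_product, Finset.mem_filter, Finset.mem_filter, mem_maps,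
      mem_maps, HasAntidiagonal.mem_antidiagonal] at hx
    obtain ⟨h3, ⟨⟨h4, h5⟩, h6⟩, ⟨h7, h8⟩, h9⟩ := hx
    dsimp only at h3 h4 h5 h6 h7 h8 h9 ⊢
    have e1 : ∀ v ∈ S₁, (if v ∈ S₁ then f₁ v else f₂ v) = f₁ v := fun v hv => if_pos hv
    have e2 : ∀ v ∈ S₂, (if v ∈ S₁ then f₁ v else f₂ v) = f₂ v := fun v hv =>
      if_neg (Finset.disjoint_right.mp hd hv)
    rw [Finset.mem_filter, mem_maps, hP]
    refine ⟨⟨fun v hv => ?_, ?_⟩, ?_, ?_⟩
    · rw [Finset.mem_union, not_or] at hv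
      rw [if_neg hv.1, h7 v hv.2]
    · rw [ct_union hd, ct_congr e1, ct_congr e2, h5, h8, h3]
    · exact (h₁ _ f₁ e1).mpr h6
    · exact (h₂ _ f₂ e2).mpr h9
  · intro f hf
    rw [Finset.mem_filter, mem_maps] at hf
    funext v
    dsimp only
    by_cases hv : v ∈ S₁
    · rw [if_pos hv, if_pos hv]
    · rw [if_neg hv]
      by_cases hv2 : v ∈ S₂
      · rw [if_pos hv2]
      · rw [if_neg hv2, hf.1.1 v (by rw [Finset.mem_union, not_or]; exact ⟨hv, hv2⟩)]
  · rintro ⟨⟨p, q⟩, ⟨f₁, f₂⟩⟩ hx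
    rw [Finset.mem_sigma, Finset.mem_product, Finset.mem_filter, Finset.mem_filter, mem_maps,
      mem_maps, HasAntidiagonal.mem_antidiagonal] at hx
    obtain ⟨h3, ⟨⟨h4, h5⟩, h6⟩, ⟨h7, h8⟩, h9⟩ := hx
    dsimp only at h3 h4 h5 h6 h7 h8 h9 ⊢
    have e1 : ∀ v ∈ S₁, (if v ∈ S₁ then f₁ v else f₂ v) = f₁ v := fun v hv => if_pos hv
    have e2 : ∀ v ∈ S₂, (if v ∈ S₁ then f₁ v else f₂ v) = f₂ v := fun v hv =>
      if_neg (Finset.disjoint_right.mp hd hv)
    have e3 : (fun v => if v ∈ S₁ then (if v ∈ S₁ then f₁ v else f₂ v) else 0) = f₁ := by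
      funext v
      by_cases hv : v ∈ S₁
      · simp only [if_pos hv]
      · simp only [if_neg hv]
        exact (h4 v hv).symm
    have e4 : (fun v => if v ∈ S₂ then (if v ∈ S₁ then f₁ v else f₂ v) else 0) = f₂ := by
      funext v
      by_cases hv : v ∈ S₂
      · rw [if_pos hv, e2 v hv]
      · rw [if_neg hv]
        exact (h7 v hv).symm
    rw [e3, e4, ct_congr e1, ct_congr e2, h5, h8]

end Pool.Agent.Lib.MP_5bc52d_co.Cyc
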