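import Mathlib
import Pool.Agent.Lib.MP_5bc52d_co.Cyc.Pred

/-!
# The half-space functionals on generating functions
-/

open Finset

set_option linter.unusedSectionVars false

namespace Pool.Agent.Lib.MP_5bc52d_co.Cyc

variable {V : Type*} [Fintype V] [DecidableEq V]

theorem fac_ct (f : V → ℕ) :
    fac (ct univ f) = ((Fintype.card {g : Equiv.Perm V // f ∘ g = f} : ℕ) : ℚ) := by
  rw [DomMulAct.stabilizer_card', fac, Finsupp.prod]
  push_cast
  have h1 : (ct univ f).support = univ.image f := by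
    ext i
    rw [Finsupp.mem_support_iff, ct_apply, Finset.mem_image, ← Nat.pos_iff_ne_zero,
      Finset.card_pos]
    constructor
    · rintro ⟨v, hv⟩
      exact ⟨v, Finset.mem_univ v, (Finset.mem_filter.mp hv).2⟩
    · rintro ⟨v, hv, h⟩
      exact ⟨v, Finset.mem_filter.mpr ⟨hv, h⟩⟩
  rw [h1]
  apply Finset.prod_congr rfl
  intro i _
  rw [ct_apply, Fintype.card_subtype]

theorem exists_perm {f g : V → ℕ} (h : ct univ g = ct univ f) :
    ∃ σ : Equiv.Perm V, f ∘ σ = g := by
  classical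
  have h1 : ∀ c : ℕ, Nonempty ({a // g a = c} ≃ {b // f b = c}) := by
    intro c
    rw [← Fintype.card_eq, Fintype.card_subtype, Fintype.card_subtype, ← ct_apply, ← ct_apply, h]
  exact ⟨Equiv.ofFiberEquiv (fun c => (h1 c).some), funext fun v =>
    Equiv.ofFiberEquiv_map (fun c => (h1 c).some) v⟩

theorem card_fib {f g : V → ℕ} (h : ct univ g = ct univ f) :
    ((Fintype.card {σ : Equiv.Perm V // f ∘ σ = g} : ℕ) : ℚ) = fac (ct univ f) := by
  rw [fac_ct]
  obtain ⟨σ₀, hσ₀⟩ := exists_perm h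
  congr 1
  refine Fintype.card_congr ⟨fun σ => ⟨σ.1 * σ₀⁻¹, ?_⟩, fun τ => ⟨τ.1 * σ₀, ?_⟩, ?_, ?_⟩
  · have h1 := σ.2
    rw [Equiv.Perm.coe_mul, ← Function.comp_assoc, h1, ← hσ₀, Function.comp_assoc]
    funext v
    simp
  · have h1 := τ.2
    rw [Equiv.Perm.coe_mul, ← Function.comp_assoc, h1, hσ₀]
  · intro σ
    simp
  · intro τ
    simp

open scoped Classical in
theorem count (f : V → ℕ) (P : (V → ℕ) → Prop) :
    fac (ct univ f) * MvPowerSeries.coeff (ct univ f) (GP univ P) =
      ∑ σ : Equiv.Perm V, if P (f ∘ σ) then 1 else 0 := by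
  have hct : ∀ σ : Equiv.Perm V, ct univ (f ∘ σ) = ct univ f := by
    intro σ
    rw [ct, ct]
    exact Equiv.sum_comp σ (fun v => Finsupp.single (f v) 1)
  rw [coeff_GP, Finset.card_filter]
  push_cast
  rw [Finset.mul_sum]
  have h1 : ∀ σ ∈ (univ : Finset (Equiv.Perm V)), f ∘ σ ∈ maps univ (ct univ f) := by
    intro σ _
    rw [mem_maps]
    exact ⟨fun v hv => absurd (Finset.mem_univ v) hv, hct σ⟩
  rw [← Finset.sum_fiberwise_of_maps_to h1]
  apply Finset.sum_congr rfl
  intro g hg
  rw [mem_maps] at hg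
  rw [Finset.sum_congr rfl (g := fun _ => if P g then (1 : ℚ) else 0)]
  · rw [Finset.sum_const, nsmul_eq_mul, ← card_fib hg.2, Fintype.card_subtype]
  · intro σ hσ
    rw [(Finset.mem_filter.mp hσ).2]

open scoped Classical in
theorem U_GP (w : V → ℤ) (P : (V → ℕ) → Prop) :
    U w univ (GP univ P) = ∑ σ : Equiv.Perm V, L w univ (fun f => if P (f ∘ σ) then 1 else 0) := by
  rw [← L_sum]
  apply U_eq_L
  intro f
  exact (count f P).symm

open scoped Classical in
/-- the functional on the generating function of the monotone maps -/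
theorem U_mono [Nonempty V] {w : V → ℤ} (hw : Generic w) (r : V → V → Prop) :
    U w univ (GP univ (fun f => ∀ a b, r a b → f a ≤ f b)) =
      - (((univ : Finset (Equiv.Perm V)).filter
        (fun σ => K (fun a b => r (σ⁻¹ a) (σ⁻¹ b)) w)).card : ℚ) := by
  rw [U_GP, Finset.card_filter]
  push_cast
  rw [← Finset.sum_neg_distrib]
  apply Finset.sum_congr rfl
  intro σ _
  refine Eq.trans (b := L w univ (ind (fun a b => r (σ⁻¹ a) (σ⁻¹ b)) univ)) ?_ ?_
  · congr 1
    funext f
    rw [ind]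
    congr 1
    apply propext
    constructor
    · intro h a _ b _ hab
      have := h _ _ hab
      simpa using this
    · intro h a b hab
      exact h (σ a) (Finset.mem_univ _) (σ b) (Finset.mem_univ _) (by simpa using hab)
  rw [L_ind]
  split_ifs with h
  · exact u_of_K hw.1 h
  · rw [u_of_not_K hw h, neg_zero]

theorem K_mono {w : V → ℤ} {r r' : V → V → Prop} (h : ∀ a b, r a b → r' a b) (hK : K r w) :
    K r' w := fun F h0 h1 h2 => hK F h0 h1 (fun a ha b hab => h2 a ha b (h a b hab))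

theorem U_mono_neg [Nonempty V] {w : V → ℤ} (hw : Generic w) {r : V → V → Prop} (hK : K r w) :
    U w univ (GP univ (fun f => ∀ a b, r a b → f a ≤ f b)) < 0 := by
  classical
  rw [U_mono hw, neg_lt_zero, Nat.cast_pos, Finset.card_pos]
  exact ⟨1, by rw [Finset.mem_filter]; exact ⟨Finset.mem_univ _, by simpa using hK⟩⟩

theorem U_mono_lt [Nonempty V] {w : V → ℤ} (hw : Generic w) {r r' : V → V → Prop}
    (h : ∀ a b, r a b → r' a b) (hK : ¬ K r w) (hK' : K r' w) :
    U w univ (GP univ (fun f => ∀ a b, r' a b → f a ≤ f b)) <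
      U w univ (GP univ (fun f => ∀ a b, r a b → f a ≤ f b)) := by
  classical
  rw [U_mono hw, U_mono hw, neg_lt_neg_iff, Nat.cast_lt]
  apply Finset.card_lt_card
  rw [Finset.ssubset_iff_of_subset]
  · refine ⟨1, ?_, ?_⟩
    · rw [Finset.mem_filter]; exact ⟨Finset.mem_univ _, by simpa using hK'⟩
    · rw [Finset.mem_filter, not_and]; exact fun _ => by simpa using hK
  · intro σ hσ
    rw [Finset.mem_filter] at hσ ⊢
    exact ⟨hσ.1, K_mono (fun a b hab => h _ _ hab) hσ.2⟩

end Pool.Agent.Lib.MP_5bc52d_co.Cyc
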