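import Mathlib
import Pool.Agent.Lib.MP_5bc52d_co.Cyc.Count

/-!
# The functional on the generating functions of systems of lexicographic inequalities
-/

open Finset

set_option linter.unusedSectionVars false

namespace Pool.Agent.Lib.MP_5bc52d_co.Cyc

variable {V ι : Type*} [Fintype V] [DecidableEq V] [DecidableEq ι] (s t : ι → V)

theorem lexlt_comp (ω f : V → ℕ) {g : ℕ → ℕ} (hg : StrictMono g) (x y : V) :
    lexlt ω (g ∘ f) x y ↔ lexlt ω f x y := by
  rw [lexlt, lexlt, Function.comp_apply, Function.comp_apply, hg.lt_iff_lt, hg.injective.eq_iff]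

theorem lexlt_trans {ω f : V → ℕ} {x y z : V} (h : lexlt ω f x y) (h' : lexlt ω f y z) :
    lexlt ω f x z := by
  rw [lexlt] at *
  omega

theorem lexlt_irrefl (ω f : V → ℕ) (x : V) : ¬ lexlt ω f x x := by
  rw [lexlt]
  omega

theorem lexlt_total {ω : V → ℕ} (hω : Function.Injective ω) (f : V → ℕ) {x y : V} (h : x ≠ y) :
    lexlt ω f x y ∨ lexlt ω f y x := by
  have h1 : ω x ≠ ω y := fun h2 => h (hω h2)
  rw [lexlt, lexlt]
  omega

theorem GamA_eq (ω : V → ℕ) (A : Finset ι) (o : ι → Bool) :
    GamA s t ω A o = GP univ (Valid s t ω A o) := by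
  classical
  funext m
  rw [GamA]
  change _ = (((maps univ m).filter (Valid s t ω A o)).card : ℚ)
  congr 1
  apply Nat.subtype_card
  intro f
  rw [Finset.mem_filter, mem_maps]
  constructor
  · rintro ⟨⟨_, h1⟩, h2⟩
    exact ⟨h2, h1⟩
  · rintro ⟨h2, h1⟩
    exact ⟨⟨fun v hv => absurd (Finset.mem_univ v) hv, h1⟩, h2⟩

theorem Valid_inv (ω : V → ℕ) (A : Finset ι) (o : ι → Bool) : Inv (Valid s t ω A o) := by
  intro f g hg
  rw [Valid, Valid]
  exact forall₂_congr fun i _ => lexlt_comp ω f hg _ _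

theorem Valid_on (ω : V → ℕ) (A : Finset ι) (o : ι → Bool) {S : Finset V}
    (h : ∀ i ∈ A, s i ∈ S ∧ t i ∈ S) : On S (Valid s t ω A o) := by
  intro f f' hf
  rw [Valid, Valid]
  refine forall₂_congr fun i hi => ?_
  have h1 : src s t o i ∈ S := by
    rw [src]; split_ifs; exacts [(h i hi).1, (h i hi).2]
  have h2 : tgt s t o i ∈ S := by
    rw [tgt]; split_ifs; exacts [(h i hi).2, (h i hi).1]
  rw [lexlt, lexlt, hf _ h1, hf _ h2]

theorem GamA_isQS (ω : V → ℕ) (A : Finset ι) (o : ι → Bool) : IsQS (GamA s t ω A o) := by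
  rw [GamA_eq]
  exact GP_isQS (Valid_inv s t ω A o) (Valid_on s t ω A o fun i _ =>
    ⟨Finset.mem_univ _, Finset.mem_univ _⟩)

theorem GamA_deg {ω : V → ℕ} {A : Finset ι} {o : ι → Bool} {m : ℕ →₀ ℕ}
    (h : MvPowerSeries.coeff m (GamA s t ω A o) ≠ 0) : deg m = Fintype.card V := by
  rw [GamA_eq] at h
  exact GP_deg h

theorem GamA_congr {ω : V → ℕ} {A : Finset ι} {o o' : ι → Bool} (h : ∀ i ∈ A, o i = o' i) :
    GamA s t ω A o = GamA s t ω A o' := by
  rw [GamA_eq, GamA_eq]
  apply GP_congr
  intro f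
  rw [Valid, Valid]
  refine forall₂_congr fun i hi => ?_
  rw [src, src, tgt, tgt, h i hi]

theorem GamA_flip {ω : V → ℕ} (hω : Function.Injective ω) {A : Finset ι} {o : ι → Bool} {i : ι}
    (hi : i ∈ A) (hne : s i ≠ t i) :
    GamA s t ω A o + GamA s t ω A (Function.update o i (!(o i))) =
      GamA s t ω (A.erase i) o := by
  rw [GamA_eq, GamA_eq, GamA_eq]
  have hother : ∀ j ∈ A.erase i, Function.update o i (!(o i)) j = o j := fun j hj =>
    Function.update_of_ne (Finset.ne_of_mem_erase hj) _ _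
  have hs : src s t (Function.update o i (!(o i))) i = tgt s t o i := by
    rw [src, tgt, Function.update_self]
    cases o i <;> simp
  have ht : tgt s t (Function.update o i (!(o i))) i = src s t o i := by
    rw [src, tgt, Function.update_self]
    cases o i <;> simp
  have hst : src s t o i ≠ tgt s t o i := by
    rw [src, tgt]
    cases o i
    · simpa using hne.symm
    · simpa using hne
  have h1 : ∀ f, Valid s t ω A o f ↔ Valid s t ω (A.erase i) o f ∧
      lexlt ω f (src s t o i) (tgt s t o i) := by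
    intro f
    constructor
    · intro h
      exact ⟨fun j hj => h j (Finset.mem_of_mem_erase hj), h i hi⟩
    · rintro ⟨h, h'⟩ j hj
      by_cases hji : j = i
      · rw [hji]; exact h'
      · exact h j (Finset.mem_erase.mpr ⟨hji, hj⟩)
  have h2 : ∀ f, Valid s t ω A (Function.update o i (!(o i))) f ↔
      Valid s t ω (A.erase i) o f ∧ lexlt ω f (tgt s t o i) (src s t o i) := by
    intro f
    constructor
    · intro h
      refine ⟨fun j hj => ?_, ?_⟩
      · have := h j (Finset.mem_of_mem_erase hj)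
        rw [src, tgt, hother j hj] at this
        exact this
      · have := h i hi
        rw [hs, ht] at this
        exact this
    · rintro ⟨h, h'⟩ j hj
      by_cases hji : j = i
      · rw [hji, hs, ht]; exact h'
      · rw [src, tgt, hother j (Finset.mem_erase.mpr ⟨hji, hj⟩)]
        exact h j (Finset.mem_erase.mpr ⟨hji, hj⟩)
  apply GP_add
  · intro f
    rw [h1, h2]
    constructor
    · intro h
      rcases lexlt_total hω f hst with h3 | h3
      · exact Or.inl ⟨h, h3⟩
      · exact Or.inr ⟨h, h3⟩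
    · rintro (h | h)
      · exact h.1
      · exact h.1
  · intro f
    rw [h1, h2]
    rintro ⟨⟨_, h3⟩, ⟨_, h4⟩⟩
    exact lexlt_irrefl ω f _ (lexlt_trans h3 h4)

theorem GamA_cyc {ω : V → ℕ} {A : Finset ι} {o : ι → Bool} {x : V}
    (h : Relation.TransGen (arc s t A o) x x) : GamA s t ω A o = 0 := by
  rw [GamA_eq]
  apply GP_false
  intro f hf
  have h1 : ∀ y, Relation.TransGen (arc s t A o) x y → lexlt ω f x y := by
    intro y hy
    induction hy with
    | single h =>
      obtain ⟨i, hi, h3, h4⟩ := h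
      rw [← h3, ← h4]
      exact hf i hi
    | tail _ h ih =>
      obtain ⟨i, hi, h3, h4⟩ := h
      refine lexlt_trans ih ?_
      rw [← h3, ← h4]
      exact hf i hi
  exact lexlt_irrefl ω f x (h1 x h)

theorem GamA_disc {ω : V → ℕ} {A : Finset ι} {o : ι → Bool} {w : V → ℤ} (hw : Generic w)
    {S : Finset V} (h0 : S ≠ ∅) (h1 : S ≠ univ) (hS : ∀ i ∈ A, (s i ∈ S ↔ t i ∈ S)) :
    U w univ (GamA s t ω A o) = 0 := by
  classical
  have h2 : GamA s t ω A o = GP S (Valid s t ω (A.filter (fun i => s i ∈ S)) o) *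
      GP Sᶜ (Valid s t ω (A.filter (fun i => s i ∉ S)) o) := by
    rw [GamA_eq, ← GP_mul (P := Valid s t ω A o), Finset.union_compl]
    · exact disjoint_compl_right
    · apply Valid_on
      intro i hi
      rw [Finset.mem_filter] at hi
      exact ⟨hi.2, (hS i hi.1).mp hi.2⟩
    · apply Valid_on
      intro i hi
      rw [Finset.mem_filter] at hi
      rw [Finset.mem_compl, Finset.mem_compl]
      exact ⟨hi.2, fun h => hi.2 ((hS i hi.1).mpr h)⟩
    · intro f
      constructor
      · intro h
        exact ⟨fun i hi => h i (Finset.mem_filter.mp hi).1,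
          fun i hi => h i (Finset.mem_filter.mp hi).1⟩
      · rintro ⟨h, h'⟩ i hi
        by_cases h3 : s i ∈ S
        · exact h i (Finset.mem_filter.mpr ⟨hi, h3⟩)
        · exact h' i (Finset.mem_filter.mpr ⟨hi, h3⟩)
  rw [h2]
  have h3 : Sᶜ ≠ ∅ := by
    rw [Ne, Finset.compl_eq_empty_iff]
    exact h1
  apply U_mul_zero hw
  · apply GP_isQS (Valid_inv s t ω _ o)
    apply Valid_on
    intro i hi
    rw [Finset.mem_filter] at hi
    exact ⟨hi.2, (hS i hi.1).mp hi.2⟩
  · apply GP_isQS (Valid_inv s t ω _ o)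
    apply Valid_on
    intro i hi
    rw [Finset.mem_filter] at hi
    rw [Finset.mem_compl, Finset.mem_compl]
    exact ⟨hi.2, fun h => hi.2 ((hS i hi.1).mpr h)⟩
  · exact GP_coeff_zero h0
  · exact GP_coeff_zero h3

theorem GamA_bridge {ω : V → ℕ} {A : Finset ι} {o : ι → Bool} {w : V → ℤ} (hw : Generic w)
    {x y : V} (h : ¬ conn s t A x y) : U w univ (GamA s t ω A o) = 0 := by
  classical
  apply GamA_disc s t hw (S := univ.filter (fun v => conn s t A x v))
  · intro h1
    have : x ∈ univ.filter (fun v => conn s t A x v) :=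
      Finset.mem_filter.mpr ⟨Finset.mem_univ _, Relation.EqvGen.refl x⟩
    rw [h1] at this
    exact absurd this (Finset.notMem_empty x)
  · intro h1
    have : y ∈ univ.filter (fun v => conn s t A x v) := by
      rw [h1]; exact Finset.mem_univ y
    exact h (Finset.mem_filter.mp this).2
  · intro i hi
    simp only [Finset.mem_filter, Finset.mem_univ, true_and]
    have h1 : conn s t A (s i) (t i) := Relation.EqvGen.rel _ _ ⟨i, hi, rfl, rfl⟩
    exact ⟨fun h2 => h2.trans _ _ _ h1, fun h2 => h2.trans _ _ _ (h1.symm _ _)⟩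

/-- when all edges are natural the inequalities are weak -/
theorem GamA_nat {ω : V → ℕ} {A : Finset ι} {o : ι → Bool}
    (h : ∀ i ∈ A, ω (src s t o i) < ω (tgt s t o i)) :
    GamA s t ω A o = GP univ (fun f => ∀ a b, arc s t A o a b → f a ≤ f b) := by
  rw [GamA_eq]
  apply GP_congr
  intro f
  constructor
  · rintro h1 a b ⟨i, hi, rfl, rfl⟩
    have := h1 i hi
    rw [lexlt] at this
    omega
  · intro h1 i hi
    have := h1 _ _ ⟨i, hi, rfl, rfl⟩
    have h2 := h i hi
    rw [lexlt]
    omega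

end Pool.Agent.Lib.MP_5bc52d_co.Cyc
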