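import Mathlib
import Pool.Agent.Lib.MP_5bc52d_co.Cyc.Arc

/-!
# The Hasse diagram of a labelled poset without mixed cycles
-/

open Finset

namespace Pool.Agent.Lib.MP_5bc52d_co.Cyc

set_option linter.unusedSectionVars false

variable {P : Type} [Fintype P] [PartialOrder P]

/-- up to switching the type of the cover relation `e₀` no cycle of the Hasse diagram contains
both weak and strict cover relations -/
def NoMixed (ω : P → ℕ) (e₀ : P × P) : Prop :=
  ∀ (v : P) (c : (SimpleGraph.hasse P).Walk v v), c.IsCycle →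
    (∀ a b : P, a ⋖ b → s(a, b) ∈ c.edges → (ω a < ω b ↔ (a, b) ≠ e₀)) ∨
    (∀ a b : P, a ⋖ b → s(a, b) ∈ c.edges → (ω b < ω a ↔ (a, b) ≠ e₀))

open scoped Classical in
/-- the cover relations -/
noncomputable def cov (P : Type) [Fintype P] [PartialOrder P] : Finset (P × P) :=
  univ.filter (fun e => e.1 ⋖ e.2)

open scoped Classical in
/-- the cover relations that are strict, after the switch -/
noncomputable def cstr (ω : P → ℕ) (e₀ : P × P) : Finset (P × P) :=
  univ.filter (fun e => e.1 ⋖ e.2 ∧ (ω e.2 < ω e.1 ↔ e ≠ e₀))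

/-- the natural orientation -/
def onat (ω : P → ℕ) : P × P → Bool := fun e => decide (ω e.1 < ω e.2)

lemma mem_cov {e : P × P} : e ∈ cov P ↔ e.1 ⋖ e.2 := by
  classical
  simp [cov]

lemma mem_cstr {ω : P → ℕ} {e₀ e : P × P} :
    e ∈ cstr ω e₀ ↔ e.1 ⋖ e.2 ∧ (ω e.2 < ω e.1 ↔ e ≠ e₀) := by
  classical
  simp [cstr]

/-- two cover relations with the same ends are equal -/
lemma cov_eq_of_ends {e f : P × P} (he : e.1 ⋖ e.2) (hf : f.1 ⋖ f.2)
    (h : s(e.1, e.2) = s(f.1, f.2)) : e = f := by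
  rw [Sym2.eq_iff] at h
  rcases h with ⟨h1, h2⟩ | ⟨h1, h2⟩
  · exact Prod.ext h1 h2
  · exfalso
    have a1 := he.lt
    have a2 := hf.lt
    rw [h1, h2] at a1
    exact lt_asymm a1 a2

/-- the graph of a set of pairs -/
def gr (A : Finset (P × P)) : SimpleGraph P := SimpleGraph.fromRel (fun x y => (x, y) ∈ A)

lemma gr_adj {A : Finset (P × P)} {x y : P} :
    (gr A).Adj x y ↔ x ≠ y ∧ ((x, y) ∈ A ∨ (y, x) ∈ A) := by
  rw [gr, SimpleGraph.fromRel_adj]

lemma gr_le {A : Finset (P × P)} (hA : A ⊆ cov P) : gr A ≤ SimpleGraph.hasse P := by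
  intro x y h
  rw [gr_adj] at h
  rw [SimpleGraph.hasse_adj]
  rcases h.2 with h | h
  · exact Or.inl (mem_cov.mp (hA h))
  · exact Or.inr (mem_cov.mp (hA h))

lemma reach_of_conn {A : Finset (P × P)} {x y : P}
    (h : conn (Prod.fst : P × P → P) Prod.snd A x y) : (gr A).Reachable x y := by
  unfold conn at h
  induction h with
  | rel x y h =>
    obtain ⟨i, hi, rfl, rfl⟩ := h
    by_cases hne : i.1 = i.2
    · rw [hne]
    · apply SimpleGraph.Adj.reachable
      rw [gr, SimpleGraph.fromRel_adj]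
      exact ⟨hne, Or.inl hi⟩
  | refl x => exact SimpleGraph.Reachable.refl _
  | symm x y _ ih => exact ih.symm
  | trans x y z _ _ ih1 ih2 => exact ih1.trans ih2

lemma conn_of_walk {G : SimpleGraph P} {A : Finset (P × P)} {x y : P} (p : G.Walk x y)
    (h : ∀ d ∈ p.darts, (d.fst, d.snd) ∈ A ∨ (d.snd, d.fst) ∈ A) :
    conn (Prod.fst : P × P → P) Prod.snd A x y := by
  induction p with
  | nil => exact Relation.EqvGen.refl _
  | @cons u v w hadj p ih =>
    have h1 := h ⟨(u, v), hadj⟩ (by simp)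
    have h2 := ih (fun d hd => h d (by simp [hd]))
    refine Relation.EqvGen.trans _ _ _ ?_ h2
    rcases h1 with h1 | h1
    · exact Relation.EqvGen.rel _ _ ⟨(u, v), h1, rfl, rfl⟩
    · exact Relation.EqvGen.symm _ _ (Relation.EqvGen.rel _ _ ⟨(v, u), h1, rfl, rfl⟩)

lemma le_of_walk {G : SimpleGraph P} {x y : P} (p : G.Walk x y)
    (h : ∀ d ∈ p.darts, d.fst ≤ d.snd) : x ≤ y := by
  induction p with
  | nil => exact le_rfl
  | @cons u v w hadj p ih =>
    exact (h ⟨(u, v), hadj⟩ (by simp)).trans (ih (fun d hd => h d (by simp [hd])))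

lemma ge_of_walk {G : SimpleGraph P} {x y : P} (p : G.Walk x y)
    (h : ∀ d ∈ p.darts, d.snd ≤ d.fst) : y ≤ x := by
  induction p with
  | nil => exact le_rfl
  | @cons u v w hadj p ih =>
    exact (ih (fun d hd => h d (by simp [hd]))).trans (h ⟨(u, v), hadj⟩ (by simp))

open scoped Classical in
/-- (E1) -/
theorem sep_of_noMixed {ω : P → ℕ} (hω : Function.Injective ω) {e₀ : P × P}
    (h : NoMixed ω e₀) : Sep (Prod.fst : P × P → P) Prod.snd (cov P) (cstr ω e₀) := by
  intro B hB i hiB hiT hc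
  obtain ⟨p, hp⟩ := (reach_of_conn hc).exists_isPath
  have hle : gr (B.erase i) ≤ SimpleGraph.hasse P := gr_le ((erase_subset _ _).trans hB)
  have hi1 : i.1 ⋖ i.2 := mem_cov.mp (hB hiB)
  -- darts of `p`
  have hd : ∀ d ∈ p.darts, ∃ e ∈ B.erase i, s(e.1, e.2) = s(d.fst, d.snd) := by
    intro d _
    have := gr_adj.mp d.adj
    rcases this.2 with h | h
    · exact ⟨(d.fst, d.snd), h, rfl⟩
    · exact ⟨(d.snd, d.fst), h, Sym2.eq_swap⟩
  have hadj : (SimpleGraph.hasse P).Adj i.2 i.1 := by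
    rw [SimpleGraph.hasse_adj]; exact Or.inr hi1
  have hcyc : (SimpleGraph.Walk.cons hadj (p.mapLe hle)).IsCycle := by
    rw [SimpleGraph.Walk.cons_isCycle_iff]
    refine ⟨(SimpleGraph.Walk.isPath_mapLe hle).mpr hp, ?_⟩
    rw [SimpleGraph.Walk.edges_mapLe_eq_edges]
    intro hmem
    rw [SimpleGraph.Walk.edges, List.mem_map] at hmem
    obtain ⟨d, hdp, hde⟩ := hmem
    obtain ⟨e, he, hee⟩ := hd d hdp
    have h1 : s(e.1, e.2) = s(i.1, i.2) := by
      rw [hee]
      have : d.edge = s(d.fst, d.snd) := rfl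
      rw [← this, hde]; exact Sym2.eq_swap
    have := cov_eq_of_ends (mem_cov.mp (hB (mem_of_mem_erase he))) hi1 h1
    exact (ne_of_mem_erase he) this
  have hT := mem_cstr.mp hiT
  have hm : ∀ e ∈ B.erase i, s(e.1, e.2) ∈ p.edges →
      s(e.1, e.2) ∈ (SimpleGraph.Walk.cons hadj (p.mapLe hle)).edges := by
    intro e _ hep
    rw [SimpleGraph.Walk.edges_cons, SimpleGraph.Walk.edges_mapLe_eq_edges]
    exact List.mem_cons_of_mem _ hep
  have key : ∀ e ∈ B.erase i, s(e.1, e.2) ∈ p.edges → e ∈ (B ∩ cstr ω e₀).erase i := by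
    intro e he hep
    have hecov : e.1 ⋖ e.2 := mem_cov.mp (hB (mem_of_mem_erase he))
    rcases h _ _ hcyc with h1 | h1
    · exfalso
      have hi := h1 i.1 i.2 hi1 (by
        rw [SimpleGraph.Walk.edges_cons]
        rw [Sym2.eq_swap]; exact List.mem_cons_self)
      have hne : ω i.1 ≠ ω i.2 := fun h => hi1.lt.ne (hω h)
      rcases lt_or_gt_of_ne hne with h3 | h3
      · have h4 : i ≠ e₀ := hi.mp h3
        exact lt_asymm h3 (hT.2.mpr h4)
      · have h4 : i ≠ e₀ := hT.2.mp h3
        exact lt_asymm h3 (hi.mpr h4)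
    · rw [mem_erase, mem_inter, mem_cstr]
      exact ⟨ne_of_mem_erase he, mem_of_mem_erase he, hecov, h1 e.1 e.2 hecov (hm e he hep)⟩
  apply conn_of_walk p
  intro d hdp
  have hde : s(d.fst, d.snd) ∈ p.edges := List.mem_map.mpr ⟨d, hdp, rfl⟩
  have := gr_adj.mp d.adj
  rcases this.2 with h | h
  · exact Or.inl (key _ h hde)
  · exact Or.inr (key _ h (by rw [Sym2.eq_swap]; exact hde))

/-- (E2) -/
theorem conn_cov (h : (SimpleGraph.fromRel (fun a b : P => a ≤ b)).Connected) (a b : P) :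
    conn (Prod.fst : P × P → P) Prod.snd (cov P) a b := by
  classical
  have key : ∀ x y : P, x ≤ y → conn (Prod.fst : P × P → P) Prod.snd (cov P) x y := by
    intro x y hxy
    let _ : LocallyFiniteOrder P := Fintype.toLocallyFiniteOrder
    have := le_iff_reflTransGen_covBy.mp hxy
    induction this with
    | refl => exact Relation.EqvGen.refl _
    | @tail y z h1 h2 ih =>
      refine Relation.EqvGen.trans _ _ _ (ih (le_iff_reflTransGen_covBy.mpr h1)) ?_
      exact Relation.EqvGen.rel _ _ ⟨(y, z), mem_cov.mpr h2, rfl, rfl⟩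
  obtain ⟨p⟩ := h.preconnected a b
  induction p with
  | nil => exact Relation.EqvGen.refl _
  | @cons u v w hadj p ih =>
    refine Relation.EqvGen.trans _ _ _ ?_ ih
    rw [SimpleGraph.fromRel_adj] at hadj
    rcases hadj.2 with h | h
    · exact key _ _ h
    · exact Relation.EqvGen.symm _ _ (key _ _ h)

/-- arcs of the natural orientation increase `ω` -/
lemma arc_lt {ω : P → ℕ} (hω : Function.Injective ω) {A : Finset (P × P)} (hA : A ⊆ cov P)
    {x y : P} (h : arc (Prod.fst : P × P → P) Prod.snd A (onat ω) x y) : ω x < ω y := by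
  obtain ⟨i, hi, rfl, rfl⟩ := h
  have hne : ω i.1 ≠ ω i.2 := fun h => (mem_cov.mp (hA hi)).lt.ne (hω h)
  unfold src tgt onat
  by_cases h : ω i.1 < ω i.2
  · simp [h]
  · simp only [h, decide_false, Bool.false_eq_true, if_false]
    omega

lemma walk_of_rtg {ω : P → ℕ} (hω : Function.Injective ω) {A : Finset (P × P)}
    (hA : A ⊆ cov P) {x y : P}
    (h : Relation.ReflTransGen (arc (Prod.fst : P × P → P) Prod.snd A (onat ω)) x y) :
    ∃ p : (SimpleGraph.hasse P).Walk x y, p.IsPath ∧ (∀ v ∈ p.support, ω x ≤ ω v) ∧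
      ∀ d ∈ p.darts, ∃ i ∈ A, src Prod.fst Prod.snd (onat ω) i = d.fst ∧
        tgt Prod.fst Prod.snd (onat ω) i = d.snd := by
  induction h using Relation.ReflTransGen.head_induction_on with
  | refl => exact ⟨SimpleGraph.Walk.nil, SimpleGraph.Walk.IsPath.nil, by simp, by simp⟩
  | @head u v huv _ ih =>
    obtain ⟨p, hp, hs, hd⟩ := ih
    have hlt := arc_lt hω hA huv
    obtain ⟨i, hi, h1, h2⟩ := huv
    have hc := mem_cov.mp (hA hi)
    have hadj : (SimpleGraph.hasse P).Adj u v := by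
      rw [SimpleGraph.hasse_adj, ← h1, ← h2]
      unfold src tgt
      cases onat ω i
      · exact Or.inr hc
      · exact Or.inl hc
    refine ⟨SimpleGraph.Walk.cons hadj p, ?_, ?_, ?_⟩
    · rw [SimpleGraph.Walk.cons_isPath_iff]
      refine ⟨hp, fun hmem => ?_⟩
      have := hs u hmem
      omega
    · intro w hw
      rw [SimpleGraph.Walk.support_cons, List.mem_cons] at hw
      rcases hw with rfl | hw
      · exact le_rfl
      · exact hlt.le.trans (hs w hw)
    · intro d hdm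
      rw [SimpleGraph.Walk.darts_cons, List.mem_cons] at hdm
      rcases hdm with rfl | hdm
      · exact ⟨i, hi, h1, h2⟩
      · exact hd d hdm

open scoped Classical in
/-- (E3) no path of naturally oriented covers avoiding `e₀` joins the ends of `e₀` in the
direction of its natural orientation -/
theorem no_path {ω : P → ℕ} (hω : Function.Injective ω) {e₀ : P × P}
    (h : NoMixed ω e₀) (he : e₀ ∈ cov P) :
    ¬ Relation.ReflTransGen (arc (Prod.fst : P × P → P) Prod.snd ((cov P).erase e₀) (onat ω))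
      (src Prod.fst Prod.snd (onat ω) e₀) (tgt Prod.fst Prod.snd (onat ω) e₀) := by
  intro hr
  have he0 := mem_cov.mp he
  obtain ⟨p, hp, _, hd⟩ := walk_of_rtg hω (erase_subset _ _) hr
  have hends : s(tgt Prod.fst Prod.snd (onat ω) e₀, src Prod.fst Prod.snd (onat ω) e₀) =
      s(e₀.1, e₀.2) := by
    unfold src tgt
    cases onat ω e₀
    · rfl
    · exact Sym2.eq_swap
  have hadj : (SimpleGraph.hasse P).Adj (tgt Prod.fst Prod.snd (onat ω) e₀)
      (src Prod.fst Prod.snd (onat ω) e₀) := by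
    rw [SimpleGraph.hasse_adj]
    unfold src tgt
    cases onat ω e₀
    · exact Or.inl he0
    · exact Or.inr he0
  have hedge : ∀ d ∈ p.darts, ∃ i ∈ (cov P).erase e₀, s(i.1, i.2) = s(d.fst, d.snd) ∧
      src Prod.fst Prod.snd (onat ω) i = d.fst ∧ tgt Prod.fst Prod.snd (onat ω) i = d.snd := by
    intro d hdm
    obtain ⟨i, hi, h1, h2⟩ := hd d hdm
    refine ⟨i, hi, ?_, h1, h2⟩
    rw [← h1, ← h2]
    unfold src tgt
    cases onat ω i
    · exact Sym2.eq_swap
    · rfl
  have hcyc : (SimpleGraph.Walk.cons hadj p).IsCycle := by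
    rw [SimpleGraph.Walk.cons_isCycle_iff]
    refine ⟨hp, ?_⟩
    intro hmem
    rw [SimpleGraph.Walk.edges, List.mem_map] at hmem
    obtain ⟨d, hdp, hde⟩ := hmem
    obtain ⟨i, hi, h1, _, _⟩ := hedge d hdp
    have h2 : s(i.1, i.2) = s(e₀.1, e₀.2) := by
      rw [h1, ← hends, ← hde]; rfl
    exact (ne_of_mem_erase hi)
      (cov_eq_of_ends (mem_cov.mp (mem_of_mem_erase hi)) he0 h2)
  have hmem : ∀ d ∈ p.darts, ∀ i : P × P, s(i.1, i.2) = s(d.fst, d.snd) →
      s(i.1, i.2) ∈ (SimpleGraph.Walk.cons hadj p).edges := by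
    intro d hdm i hi
    rw [SimpleGraph.Walk.edges_cons]
    apply List.mem_cons_of_mem
    rw [hi]
    exact List.mem_map.mpr ⟨d, hdm, rfl⟩
  have hmem0 : s(e₀.1, e₀.2) ∈ (SimpleGraph.Walk.cons hadj p).edges := by
    rw [SimpleGraph.Walk.edges_cons, hends]
    exact List.mem_cons_self
  have hne : ω e₀.1 ≠ ω e₀.2 := fun h => he0.lt.ne (hω h)
  rcases h _ _ hcyc with h1 | h1
  · have h0 : ¬ ω e₀.1 < ω e₀.2 := fun hlt => (h1 _ _ he0 hmem0).mp hlt rfl
    have hle : src Prod.fst Prod.snd (onat ω) e₀ ≤ tgt Prod.fst Prod.snd (onat ω) e₀ := by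
      apply le_of_walk p
      intro d hdm
      obtain ⟨i, hi, h2, h3, h4⟩ := hedge d hdm
      have hic := mem_cov.mp (mem_of_mem_erase hi)
      have h5 : ω i.1 < ω i.2 := (h1 i.1 i.2 hic (hmem d hdm i h2)).mpr (ne_of_mem_erase hi)
      rw [← h3, ← h4]
      simp only [src, tgt, onat, h5, decide_true, if_true]
      exact hic.le
    simp only [src, tgt, onat, h0, decide_false, Bool.false_eq_true, if_false] at hle
    exact absurd he0.lt (not_lt_of_ge hle)
  · have h0 : ω e₀.1 < ω e₀.2 := by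
      by_contra hcon
      have : ω e₀.2 < ω e₀.1 := by omega
      exact (h1 _ _ he0 hmem0).mp this rfl
    have hle : tgt Prod.fst Prod.snd (onat ω) e₀ ≤ src Prod.fst Prod.snd (onat ω) e₀ := by
      apply ge_of_walk p
      intro d hdm
      obtain ⟨i, hi, h2, h3, h4⟩ := hedge d hdm
      have hic := mem_cov.mp (mem_of_mem_erase hi)
      have h5 : ω i.2 < ω i.1 := (h1 i.1 i.2 hic (hmem d hdm i h2)).mpr (ne_of_mem_erase hi)
      have h6 : ¬ ω i.1 < ω i.2 := by omega
      rw [← h3, ← h4]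
      simp only [src, tgt, onat, h6, decide_false, Bool.false_eq_true, if_false]
      exact hic.le
    simp only [src, tgt, onat, h0, decide_true, if_true] at hle
    exact absurd he0.lt (not_lt_of_ge hle)

end Pool.Agent.Lib.MP_5bc52d_co.Cyc
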