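import Mathlib
import Pool.Agent.Lib.MP_5bc52d_co.Cyc.Arc

/-!
# The sign of a set of edges

The parity of the rank (number of vertices minus number of components) of a set of edges.
-/

open Finset

set_option linter.unusedSectionVars false

namespace Pool.Agent.Lib.MP_5bc52d_co.Cyc

variable {V ι : Type*} [Fintype V] [DecidableEq V] [DecidableEq ι] (s t : ι → V)

/-- the rank of a set of edges -/
noncomputable def rk (T : Finset ι) : ℕ :=
  Module.finrank ℚ (Submodule.span ℚ
    ((fun i => (Pi.single (s i) 1 - Pi.single (t i) 1 : V → ℚ)) '' (T : Set ι)))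

/-- the sign of a set of edges -/
noncomputable def sgn (T : Finset ι) : ℚ := (-1) ^ rk s t T

/-- the vector of a pair -/
def vec (x y : V) : V → ℚ := Pi.single x 1 - Pi.single y 1

/-- the span of a set of edges -/
def spn (T : Finset ι) : Submodule ℚ (V → ℚ) :=
  Submodule.span ℚ ((fun i => vec (s i) (t i)) '' (T : Set ι))

theorem vec_mem_of_conn {T : Finset ι} {x y : V} (h : conn s t T x y) : vec x y ∈ spn s t T := by
  induction h with
  | rel x y hxy =>
    obtain ⟨i, hi, rfl, rfl⟩ := hxy
    exact Submodule.subset_span ⟨i, hi, rfl⟩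
  | refl x =>
    rw [vec, sub_self]
    exact Submodule.zero_mem _
  | symm x y _ ih =>
    have : vec y x = - vec x y := by rw [vec, vec, neg_sub]
    rw [this]
    exact Submodule.neg_mem _ ih
  | trans x y z _ _ ih1 ih2 =>
    have : vec x z = vec x y + vec y z := by rw [vec, vec, vec]; abel
    rw [this]
    exact Submodule.add_mem _ ih1 ih2

theorem conn_of_vec_mem {T : Finset ι} {x y : V} (h : vec x y ∈ spn s t T) :
    conn s t T x y := by
  classical
  by_contra hc
  let φ : (V → ℚ) →ₗ[ℚ] ℚ :=
    ∑ v ∈ univ.filter (fun v => conn s t T x v), LinearMap.proj v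
  have hφ : ∀ a b : V, φ (vec a b) = (if conn s t T x a then 1 else 0) -
      (if conn s t T x b then 1 else 0) := by
    intro a b
    simp only [φ, vec, LinearMap.sum_apply, LinearMap.proj_apply, Pi.sub_apply,
      Finset.sum_sub_distrib, Pi.single_apply]
    rw [Finset.sum_ite_eq', Finset.sum_ite_eq']
    simp
  have h1 : spn s t T ≤ LinearMap.ker φ := by
    rw [spn, Submodule.span_le]
    rintro _ ⟨i, hi, rfl⟩
    rw [SetLike.mem_coe, LinearMap.mem_ker]
    beta_reduce
    rw [hφ]
    have h2 : conn s t T (s i) (t i) := Relation.EqvGen.rel _ _ ⟨i, hi, rfl, rfl⟩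
    have h3 : conn s t T x (s i) ↔ conn s t T x (t i) :=
      ⟨fun h => h.trans _ _ _ h2, fun h => h.trans _ _ _ (h2.symm _ _)⟩
    simp only [h3, sub_self]
  have h2 := h1 h
  have h3 : conn s t T x x := Relation.EqvGen.refl x
  rw [LinearMap.mem_ker, hφ, if_pos h3, if_neg hc] at h2
  norm_num at h2

theorem rk_eq (T : Finset ι) : rk s t T = Module.finrank ℚ (spn s t T) := rfl

theorem spn_erase {T : Finset ι} {i : ι} (hi : i ∈ T) :
    spn s t T = spn s t (T.erase i) ⊔ Submodule.span ℚ {vec (s i) (t i)} := by
  rw [spn, spn, ← Submodule.span_union]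
  congr 1
  have h : (T : Set ι) = insert i ((T.erase i : Finset ι) : Set ι) := by
    rw [← Finset.coe_insert, Finset.insert_erase hi]
  rw [h, Set.image_insert_eq, Set.union_singleton]

theorem sgn_empty : sgn s t ∅ = 1 := by
  rw [sgn, rk_eq, spn, Finset.coe_empty, Set.image_empty, Submodule.span_empty, finrank_bot,
    pow_zero]

/-- deleting an edge whose ends are joined by the other edges -/
theorem sgn_erase {T : Finset ι} {i : ι} (hi : i ∈ T) (h : conn s t (T.erase i) (s i) (t i)) :
    sgn s t (T.erase i) = sgn s t T := by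
  rw [sgn, sgn, rk_eq, rk_eq, spn_erase s t hi, sup_eq_left.mpr]
  rw [Submodule.span_le, Set.singleton_subset_iff]
  exact vec_mem_of_conn s t h

/-- deleting an edge whose ends are not joined by the other edges -/
theorem sgn_erase' {T : Finset ι} {i : ι} (hi : i ∈ T)
    (h : ¬ conn s t (T.erase i) (s i) (t i)) :
    sgn s t (T.erase i) = - sgn s t T := by
  rw [sgn, sgn, rk_eq, rk_eq, spn_erase s t hi,
    Submodule.finrank_sup_span_singleton (fun h' => h (conn_of_vec_mem s t h')), pow_succ]
  ring

theorem sgn_ne_zero (T : Finset ι) : sgn s t T ≠ 0 := by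
  rw [sgn]
  apply pow_ne_zero
  norm_num

end Pool.Agent.Lib.MP_5bc52d_co.Cyc
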