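import Mathlib
import Pool.Agent.Lib.MP_5bc52d_co.Cyc.Rank

/-!
# The reversal lemma

Reversing a set of edges that separates from the rest multiplies a functional satisfying the
deletion relation by a sign.
-/

open Finset

set_option linter.unusedSectionVars false

namespace Pool.Agent.Lib.MP_5bc52d_co.Cyc

variable {V ι : Type*} [Fintype V] [DecidableEq V] [DecidableEq ι] (s t : ι → V)

theorem conn_mono {A B : Finset ι} (h : A ⊆ B) {x y : V} (hc : conn s t A x y) :
    conn s t B x y := by
  induction hc with
  | rel x y hxy =>
    obtain ⟨i, hi, h'⟩ := hxy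
    exact Relation.EqvGen.rel _ _ ⟨i, h hi, h'⟩
  | refl x => exact Relation.EqvGen.refl x
  | symm x y _ ih => exact ih.symm _ _
  | trans x y z _ _ ih1 ih2 => exact ih1.trans _ _ _ ih2

/-- a set of vertices closed under the edges is closed under `conn` -/
theorem conn_closed {A : Finset ι} {Z : V → Prop} (h : ∀ i ∈ A, Z (s i) ↔ Z (t i)) {x y : V}
    (hc : conn s t A x y) : Z x ↔ Z y := by
  induction hc with
  | rel x y hxy =>
    obtain ⟨i, hi, rfl, rfl⟩ := hxy
    exact h i hi
  | refl x => rfl
  | symm x y _ ih => exact ih.symm
  | trans x y z _ _ ih1 ih2 => exact ih1.trans ih2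

theorem conn_erase {T : Finset ι} {i : ι} {x b : V} (hc : conn s t T x b) :
    conn s t (T.erase i) x b ∨ conn s t (T.erase i) (s i) b ∨ conn s t (T.erase i) (t i) b := by
  by_contra h
  rw [not_or, not_or] at h
  obtain ⟨h1, h2, h3⟩ := h
  apply h1
  have h4 : ∀ j ∈ T, conn s t (T.erase i) (s j) b ↔ conn s t (T.erase i) (t j) b := by
    intro j hj
    by_cases hji : j = i
    · rw [hji]
      exact ⟨fun h => absurd h h2, fun h => absurd h h3⟩
    · have h5 : conn s t (T.erase i) (s j) (t j) :=
        Relation.EqvGen.rel _ _ ⟨j, Finset.mem_erase.mpr ⟨hji, hj⟩, rfl, rfl⟩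
      exact ⟨fun h => (h5.symm _ _).trans _ _ _ h, fun h => h5.trans _ _ _ h⟩
  exact (conn_closed s t (Z := fun z => conn s t (T.erase i) z b) h4 hc).mpr
    (Relation.EqvGen.refl b)

theorem arc_congr {A : Finset ι} {o o' : ι → Bool} (h : ∀ i ∈ A, o i = o' i) {x y : V}
    (ha : arc s t A o x y) : arc s t A o' x y := by
  obtain ⟨i, hi, h1, h2⟩ := ha
  refine ⟨i, hi, ?_, ?_⟩
  · rw [src, ← h i hi]; exact h1
  · rw [tgt, ← h i hi]; exact h2

theorem arc_mono {A B : Finset ι} (h : A ⊆ B) {o : ι → Bool} {x y : V}
    (ha : arc s t A o x y) : arc s t B o x y := by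
  obtain ⟨i, hi, h1⟩ := ha
  exact ⟨i, h hi, h1⟩

theorem orient (n : ℕ) : ∀ T : Finset ι, T.card = n → ∀ a b : V, conn s t T a b →
    ∀ o : ι → Bool, ∃ o' : ι → Bool, (∀ i, i ∉ T → o' i = o i) ∧
      Relation.ReflTransGen (arc s t T o') a b := by
  induction n using Nat.strong_induction_on with
  | _ n ih =>
    intro T hT a b hab o
    by_cases hab' : a = b
    · exact ⟨o, fun _ _ => rfl, by rw [hab']⟩
    · have h1 : ∃ i ∈ T, s i = a ∨ t i = a := by
        by_contra h
        push Not at h
        have h2 := conn_closed s t (Z := fun z => z = a) (A := T) (fun i hi => by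
          have := h i hi
          exact ⟨fun h3 => absurd h3 this.1, fun h3 => absurd h3 this.2⟩) hab
        exact hab' (h2.mp rfl).symm
      obtain ⟨i, hi, hia⟩ := h1
      obtain ⟨β, c, hβa, hβc, hc⟩ : ∃ (β : Bool) (c : V), (if β then s i else t i) = a ∧
          (if β then t i else s i) = c ∧
          (conn s t (T.erase i) a b ∨ conn s t (T.erase i) c b) := by
        have h2 := conn_erase s t (i := i) hab
        rcases hia with h | h
        · refine ⟨true, t i, by simpa using h, by simp, ?_⟩
          rw [h] at h2
          tauto
        · refine ⟨false, s i, by simpa using h, by simp, ?_⟩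
          rw [h] at h2
          tauto
      have hlt : (T.erase i).card < n := by
        rw [← hT]
        exact Finset.card_erase_lt_of_mem hi
      rcases hc with hc | hc
      · obtain ⟨o', h3, h4⟩ := ih _ hlt (T.erase i) rfl a b hc o
        refine ⟨o', fun j hj => h3 j (fun h => hj (Finset.mem_of_mem_erase h)), ?_⟩
        exact Relation.ReflTransGen.mono
          (fun x y h => arc_mono s t (Finset.erase_subset i T) h) _ _ h4
      · obtain ⟨o', h3, h4⟩ := ih _ hlt (T.erase i) rfl c b hc o
        refine ⟨Function.update o' i β, fun j hj => ?_, ?_⟩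
        · have hji : j ≠ i := by
            rintro rfl
            exact hj hi
          rw [Function.update_of_ne hji]
          exact h3 j (fun h => hj (Finset.mem_of_mem_erase h))
        · refine Relation.ReflTransGen.head (b := c) ⟨i, hi, ?_, ?_⟩ ?_
          · rw [src, Function.update_self]; exact hβa
          · rw [tgt, Function.update_self]; exact hβc
          · refine Relation.ReflTransGen.mono (fun x y h => ?_) _ _ h4
            apply arc_mono s t (Finset.erase_subset i T)
            apply arc_congr s t _ h
            intro j hj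
            rw [Function.update_of_ne (Finset.ne_of_mem_erase hj)]

theorem arc_rev {A T : Finset ι} {o : ι → Bool} (hTA : T ⊆ A) {x y : V}
    (h : arc s t T o x y) : arc s t A (rev T o) y x := by
  obtain ⟨i, hi, h1, h2⟩ := h
  refine ⟨i, hTA hi, ?_, ?_⟩
  · rw [src, rev, if_pos hi, ← h2, tgt]
    cases o i <;> simp
  · rw [tgt, rev, if_pos hi, ← h1, src]
    cases o i <;> simp

theorem rev_update {T : Finset ι} {o : ι → Bool} {e : ι} (he : e ∈ T) :
    rev T (Function.update o e (!(o e))) =
      Function.update (rev T o) e (!(rev T o e)) := by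
  funext i
  by_cases hie : i = e
  · subst hie
    rw [Function.update_self, rev, rev, if_pos he, if_pos he, Function.update_self]
  · rw [Function.update_of_ne hie, rev, rev, Function.update_of_ne hie]

theorem rev_insert {T : Finset ι} {o : ι → Bool} {e : ι} (he : e ∉ T) :
    rev (insert e T) o = Function.update (rev T o) e (!(rev T o e)) := by
  funext i
  by_cases hie : i = e
  · subst hie
    rw [Function.update_self, rev, rev, if_pos (Finset.mem_insert_self _ _), if_neg he]
  · rw [Function.update_of_ne hie, rev, rev]
    simp only [Finset.mem_insert, hie, false_or]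

theorem Sep.erase {A T : Finset ι} (h : Sep s t A T) (e : ι) :
    Sep s t (A.erase e) (T.erase e) := by
  intro B hB i hi hiT hc
  have hBe : e ∉ B := fun h1 => Finset.notMem_erase e A (hB h1)
  have h1 := h B (hB.trans (Finset.erase_subset e A)) i hi (Finset.mem_of_mem_erase hiT) hc
  have h2 : B ∩ T.erase e = B ∩ T := by
    ext j
    simp only [Finset.mem_inter, Finset.mem_erase]
    constructor
    · rintro ⟨h3, _, h4⟩; exact ⟨h3, h4⟩
    · rintro ⟨h3, h4⟩; exact ⟨h3, fun h5 => hBe (h5 ▸ h3), h4⟩
  rw [h2]
  exact h1

theorem reversal (g : Finset ι → (ι → Bool) → ℚ)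
    (hext : ∀ A o o', (∀ i ∈ A, o i = o' i) → g A o = g A o')
    (hflip : ∀ A o i, i ∈ A → s i ≠ t i →
      g A o + g A (Function.update o i (!(o i))) = g (A.erase i) o)
    (hbr : ∀ A o x y, ¬ conn s t A x y → g A o = 0)
    (hcyc : ∀ A o x, Relation.TransGen (arc s t A o) x x → g A o = 0) (n : ℕ) :
    ∀ A T : Finset ι, T.card = n → T ⊆ A → (∀ i ∈ A, s i ≠ t i) → Sep s t A T →
      ∀ o : ι → Bool, g A (rev T o) = sgn s t T * g A o := by
  induction n using Nat.strong_induction_on with
  | _ n ih =>
    intro A T hTn hTA hne hSep o
    by_cases hT0 : T = ∅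
    · subst hT0
      rw [sgn_empty, one_mul]
      apply hext
      intro i _
      rw [rev, if_neg (Finset.notMem_empty i)]
    -- the other deletions
    have hcard : ∀ e ∈ T, (T.erase e).card < n := fun e he => by
      rw [← hTn]; exact Finset.card_erase_lt_of_mem he
    have hsep : ∀ e ∈ T, ¬ conn s t (T.erase e) (s e) (t e) →
        ¬ conn s t (A.erase e) (s e) (t e) := by
      intro e he h1 h2
      apply h1
      have h3 := hSep A (Finset.Subset.refl A) e (hTA he) he h2
      rw [Finset.inter_eq_right.mpr hTA] at h3
      exact h3
    have hbrack : ∀ e ∈ T, ∀ o : ι → Bool,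
        g (A.erase e) (rev T o) = sgn s t T * g (A.erase e) o := by
      intro e he o
      by_cases hc : conn s t (T.erase e) (s e) (t e)
      · have h1 : g (A.erase e) (rev T o) = g (A.erase e) (rev (T.erase e) o) := by
          apply hext
          intro i hi
          rw [rev, rev]
          simp only [Finset.mem_erase, ne_eq, Finset.ne_of_mem_erase hi, not_false_eq_true,
            true_and]
        rw [h1, ih _ (hcard e he) _ _ rfl (Finset.erase_subset_erase e hTA)
          (fun i hi => hne i (Finset.mem_of_mem_erase hi)) (hSep.erase s t e),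
          sgn_erase s t he hc]
      · rw [hbr _ _ _ _ (hsep e he hc), hbr _ _ _ _ (hsep e he hc), mul_zero]
    have hD : ∀ e ∈ T, ∀ o : ι → Bool,
        g A (rev T (Function.update o e (!(o e)))) -
          sgn s t T * g A (Function.update o e (!(o e))) =
        -(g A (rev T o) - sgn s t T * g A o) := by
      intro e he o
      have h1 := hflip A o e (hTA he) (hne e (hTA he))
      have h2 := hflip A (rev T o) e (hTA he) (hne e (hTA he))
      have h3 := hbrack e he o
      rw [rev_update he]
      linear_combination h2 - sgn s t T * h1 + h3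
    have hDS : ∀ S : Finset ι, S ⊆ T → ∀ o : ι → Bool,
        (g A (rev T (rev S o)) - sgn s t T * g A (rev S o)) =
        (-1) ^ S.card * (g A (rev T o) - sgn s t T * g A o) := by
      intro S
      induction S using Finset.induction_on with
      | empty =>
        intro _ o
        have h1 : rev (∅ : Finset ι) o = o := by
          funext i
          rw [rev, if_neg (Finset.notMem_empty i)]
        rw [h1]
        simp
      | insert e S he ih2 =>
        intro hS o
        rw [rev_insert he, hD e (hS (Finset.mem_insert_self e S)),
          ih2 ((Finset.subset_insert e S).trans hS), Finset.card_insert_of_notMem he, pow_succ]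
        ring
    by_cases hex : ∃ e ∈ T, conn s t (T.erase e) (s e) (t e)
    · obtain ⟨e, he, hc⟩ := hex
      obtain ⟨o', h1, h2⟩ := orient s t _ (T.erase e) rfl (t e) (s e) (hc.symm _ _) o
      set o₂ := Function.update o' e true with ho₂
      have h3 : Relation.ReflTransGen (arc s t T o₂) (t e) (s e) := by
        refine Relation.ReflTransGen.mono (fun x y h => ?_) _ _ h2
        apply arc_mono s t (Finset.erase_subset e T)
        apply arc_congr s t _ h
        intro j hj
        rw [ho₂, Function.update_of_ne (Finset.ne_of_mem_erase hj)]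
      have h4 : arc s t T o₂ (s e) (t e) := by
        refine ⟨e, he, ?_, ?_⟩
        · rw [src, ho₂, Function.update_self]; simp
        · rw [tgt, ho₂, Function.update_self]; simp
      have h5 : Relation.TransGen (arc s t T o₂) (t e) (t e) :=
        Relation.TransGen.tail' h3 h4
      have h6 : g A o₂ = 0 := by
        apply hcyc A o₂ (t e)
        exact Relation.TransGen.mono (fun x y h => arc_mono s t hTA h) _ _ h5
      have h7 : g A (rev T o₂) = 0 := by
        apply hcyc A _ (t e)
        have h8 : Relation.TransGen (Function.swap (arc s t A (rev T o₂))) (t e) (t e) :=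
          Relation.TransGen.mono (fun x y h => arc_rev s t hTA h) _ _ h5
        rw [Relation.transGen_swap] at h8
        exact h8
      have h8 : o₂ = rev (T.filter (fun i => o i ≠ o₂ i)) o := by
        funext i
        rw [rev]
        simp only [Finset.mem_filter]
        by_cases h9 : i ∈ T
        · by_cases h10 : o i = o₂ i
          · rw [if_neg (by tauto)]
            exact h10.symm
          · rw [if_pos ⟨h9, h10⟩]
            cases h11 : o i <;> cases h12 : o₂ i <;> simp_all
        · have hie : i ≠ e := by
            rintro rfl
            exact h9 he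
          rw [if_neg (by tauto), ho₂, Function.update_of_ne hie]
          exact h1 i (fun h => h9 (Finset.mem_of_mem_erase h))
      have h9 := hDS (T.filter (fun i => o i ≠ o₂ i)) (Finset.filter_subset _ _) o
      rw [← h8, h6, h7] at h9
      have h10 : ((-1 : ℚ) ^ (T.filter (fun i => o i ≠ o₂ i)).card) ≠ 0 := by
        apply pow_ne_zero
        norm_num
      rw [mul_zero, sub_zero] at h9
      have h11 := (mul_eq_zero.mp h9.symm).resolve_left h10
      linarith
    · push Not at hex
      obtain ⟨e, he⟩ := Finset.nonempty_iff_ne_empty.mpr hT0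
      have hSep' : Sep s t A (T.erase e) := by
        intro B hB i hi hiT hc
        exfalso
        have hiT' := Finset.mem_of_mem_erase hiT
        have h1 := hSep B hB i hi hiT' hc
        exact hex i hiT' (conn_mono s t
          (Finset.erase_subset_erase i Finset.inter_subset_right) h1)
      have h1 := ih _ (hcard e he) A (T.erase e) rfl ((Finset.erase_subset e T).trans hTA) hne
        hSep' o
      have h2 := hflip A (rev (T.erase e) o) e (hTA he) (hne e (hTA he))
      rw [← rev_insert (Finset.notMem_erase e T), Finset.insert_erase he,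
        hbr _ _ _ _ (hsep e he (hex e he)), h1, sgn_erase' s t he (hex e he)] at h2
      linarith

end Pool.Agent.Lib.MP_5bc52d_co.Cyc
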