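import Mathlib
import Pool.Agent.Lib.MP_5bc52d_co.Cyc.Fam

/-!
# Weights with distinct powers of two on the edges
-/

open Finset

set_option linter.unusedSectionVars false

namespace Pool.Agent.Lib.MP_5bc52d_co.Cyc

theorem dom_pos {ι : Type*} {A : Finset ι} {ν : ι → ℕ} (hν : Set.InjOn ν (A : Set ι))
    {c : ι → ℤ} (hc : ∀ i ∈ A, -1 ≤ c i) {i₀ : ι} (h₀ : i₀ ∈ A) (h1 : c i₀ = 1)
    (hmax : ∀ i ∈ A, c i ≠ 0 → ν i ≤ ν i₀) : 0 < ∑ i ∈ A, 2 ^ (ν i) * c i := by
  classical
  rw [← Finset.add_sum_erase A _ h₀, h1, mul_one]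
  set B := (A.erase i₀).filter (fun i => c i ≠ 0) with hB
  have h2 : ∑ i ∈ B, (2 : ℕ) ^ (ν i) < 2 ^ (ν i₀) := by
    have h3 : ∑ i ∈ B, (2 : ℕ) ^ (ν i) = ∑ k ∈ B.image ν, 2 ^ k := by
      rw [Finset.sum_image]
      intro i hi j hj hij
      rw [hB, Finset.coe_filter, Set.mem_ofPred_eq] at hi hj
      exact hν (Finset.mem_of_mem_erase hi.1) (Finset.mem_of_mem_erase hj.1) hij
    rw [h3]
    apply Nat.geomSum_lt le_rfl
    intro k hk
    rw [Finset.mem_image] at hk
    obtain ⟨i, hi, rfl⟩ := hk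
    rw [hB, Finset.mem_filter, Finset.mem_erase] at hi
    refine lt_of_le_of_ne (hmax i hi.1.2 hi.2) ?_
    intro h
    exact hi.1.1 (hν hi.1.2 h₀ h)
  have h3 : -(∑ i ∈ B, (2 : ℤ) ^ (ν i)) ≤ ∑ i ∈ A.erase i₀, 2 ^ (ν i) * c i := by
    rw [hB, Finset.sum_filter, ← Finset.sum_neg_distrib]
    apply Finset.sum_le_sum
    intro i hi
    have h4 := hc i (Finset.mem_of_mem_erase hi)
    have h5 : (0 : ℤ) < 2 ^ (ν i) := by positivity
    split_ifs with h6
    · nlinarith
    · rw [not_not.mp h6]; simp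
  have h4 : ∑ i ∈ B, (2 : ℤ) ^ (ν i) < 2 ^ (ν i₀) := by exact_mod_cast h2
  linarith

theorem dom_neg {ι : Type*} {A : Finset ι} {ν : ι → ℕ} (hν : Set.InjOn ν (A : Set ι))
    {c : ι → ℤ} (hc : ∀ i ∈ A, c i ≤ 1) {i₀ : ι} (h₀ : i₀ ∈ A) (h1 : c i₀ = -1)
    (hmax : ∀ i ∈ A, c i ≠ 0 → ν i ≤ ν i₀) : ∑ i ∈ A, 2 ^ (ν i) * c i < 0 := by
  have h2 := dom_pos hν (c := fun i => - c i) (fun i hi => by have := hc i hi; linarith) h₀
    (by rw [h1]; norm_num) (fun i hi h => hmax i hi (fun h' => h (by rw [h', neg_zero])))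
  simp only [mul_neg, Finset.sum_neg_distrib] at h2
  linarith

section wts

variable {V ι : Type*} [Fintype V] [DecidableEq V] [DecidableEq ι] (s t : ι → V)

/-- the contribution of an edge to the weight of a set -/
def cr (o : ι → Bool) (F : Finset V) (i : ι) : ℤ :=
  (if src s t o i ∈ F then 1 else 0) - (if tgt s t o i ∈ F then 1 else 0)

/-- the weight with the power `2 ^ ν i` on the edge `i` -/
def we (ν : ι → ℕ) (A : Finset ι) (o : ι → Bool) : V → ℤ := fun v =>
  ∑ i ∈ A, 2 ^ (ν i) * ((if src s t o i = v then 1 else 0) - (if tgt s t o i = v then 1 else 0))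

theorem wt_we (ν : ι → ℕ) (A : Finset ι) (o : ι → Bool) (F : Finset V) :
    wt (we s t ν A o) F = ∑ i ∈ A, 2 ^ (ν i) * cr s t o F i := by
  rw [wt]
  unfold we
  rw [Finset.sum_comm]
  apply Finset.sum_congr rfl
  intro i _
  rw [← Finset.mul_sum, Finset.sum_sub_distrib, cr]
  simp

theorem cr_le (o : ι → Bool) (F : Finset V) (i : ι) : cr s t o F i ≤ 1 := by
  rw [cr]; split_ifs <;> norm_num

theorem cr_ge (o : ι → Bool) (F : Finset V) (i : ι) : -1 ≤ cr s t o F i := by
  rw [cr]; split_ifs <;> norm_num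

theorem cr_ne (o : ι → Bool) (F : Finset V) (i : ι) (h : cr s t o F i ≠ 0) :
    cr s t o F i = 1 ∨ cr s t o F i = -1 := by
  rw [cr] at *
  split_ifs at * <;> simp_all

theorem exists_cross {A : Finset ι} (hconn : ∀ a b, conn s t A a b) (o : ι → Bool)
    {F : Finset V} (h0 : F ≠ ∅) (h1 : F ≠ univ) : ∃ i ∈ A, cr s t o F i ≠ 0 := by
  by_contra h
  push Not at h
  obtain ⟨x, hx⟩ := Finset.nonempty_iff_ne_empty.mpr h0
  have h2 : ∀ a b, conn s t A a b → (a ∈ F ↔ b ∈ F) := by
    intro a b hab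
    induction hab with
    | rel a b hab =>
      obtain ⟨i, hi, rfl, rfl⟩ := hab
      have := h i hi
      rw [cr, src, tgt] at this
      cases ho : o i
      · rw [ho] at this
        by_cases h3 : s i ∈ F <;> by_cases h4 : t i ∈ F <;> simp_all
      · rw [ho] at this
        by_cases h3 : s i ∈ F <;> by_cases h4 : t i ∈ F <;> simp_all
    | refl a => rfl
    | symm a b _ ih => exact ih.symm
    | trans a b c _ _ ih1 ih2 => exact ih1.trans ih2
  apply h1
  rw [Finset.eq_univ_iff_forall]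
  exact fun y => (h2 x y (hconn x y)).mp hx

theorem generic_we {ν : ι → ℕ} {A : Finset ι} (hν : Set.InjOn ν (A : Set ι))
    (hconn : ∀ a b, conn s t A a b) (o : ι → Bool) : Generic (we s t ν A o) := by
  classical
  refine ⟨?_, fun F h0 h1 => ?_⟩
  · rw [wt_we]
    apply Finset.sum_eq_zero
    intro i _
    rw [cr]
    simp
  · obtain ⟨i, hi, hi'⟩ := exists_cross s t hconn o h0 h1
    obtain ⟨i₀, h₀, hmax⟩ := Finset.exists_max_image (A.filter (fun i => cr s t o F i ≠ 0)) ν
      ⟨i, Finset.mem_filter.mpr ⟨hi, hi'⟩⟩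
    rw [Finset.mem_filter] at h₀
    have hmax' : ∀ i ∈ A, cr s t o F i ≠ 0 → ν i ≤ ν i₀ := fun i hi h =>
      hmax i (Finset.mem_filter.mpr ⟨hi, h⟩)
    rw [wt_we]
    rcases cr_ne s t o F i₀ h₀.2 with h2 | h2
    · exact (dom_pos hν (fun i _ => cr_ge s t o F i) h₀.1 h2 hmax').ne'
    · exact (dom_neg hν (fun i _ => cr_le s t o F i) h₀.1 h2 hmax').ne

theorem K_we {ν : ι → ℕ} {A : Finset ι} (hν : Set.InjOn ν (A : Set ι))
    (hconn : ∀ a b, conn s t A a b) (o : ι → Bool) :
    K (arc s t A o) (we s t ν A o) := by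
  classical
  intro F h0 h1 hF
  have hle : ∀ i ∈ A, cr s t o F i ≤ 0 := by
    intro i hi
    rw [cr]
    by_cases h2 : src s t o i ∈ F
    · have h3 := hF _ h2 _ ⟨i, hi, rfl, rfl⟩
      rw [if_pos h2, if_pos h3]
      norm_num
    · rw [if_neg h2]
      split_ifs <;> norm_num
  obtain ⟨i, hi, hi'⟩ := exists_cross s t hconn o h0 h1
  obtain ⟨i₀, h₀, hmax⟩ := Finset.exists_max_image (A.filter (fun i => cr s t o F i ≠ 0)) ν
    ⟨i, Finset.mem_filter.mpr ⟨hi, hi'⟩⟩
  rw [Finset.mem_filter] at h₀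
  have hmax' : ∀ i ∈ A, cr s t o F i ≠ 0 → ν i ≤ ν i₀ := fun i hi h =>
    hmax i (Finset.mem_filter.mpr ⟨hi, h⟩)
  rw [wt_we]
  rcases cr_ne s t o F i₀ h₀.2 with h2 | h2
  · have := hle i₀ h₀.1
    omega
  · exact dom_neg hν (fun i _ => cr_le s t o F i) h₀.1 h2 hmax'

theorem not_K_we {ν : ι → ℕ} {A : Finset ι} (hν : Set.InjOn ν (A : Set ι)) (o : ι → Bool)
    {e : ι} (he : e ∈ A) (hmax : ∀ i ∈ A, ν i ≤ ν e)
    (hpath : ¬ Relation.ReflTransGen (arc s t (A.erase e) o) (src s t o e) (tgt s t o e)) :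
    ¬ K (arc s t (A.erase e) o) (we s t ν A o) := by
  classical
  intro hK
  set F : Finset V := univ.filter
    (fun z => Relation.ReflTransGen (arc s t (A.erase e) o) (src s t o e) z) with hF
  have hmem : ∀ z, z ∈ F ↔ Relation.ReflTransGen (arc s t (A.erase e) o) (src s t o e) z := by
    intro z
    rw [hF, Finset.mem_filter]
    simp
  have h1 : src s t o e ∈ F := (hmem _).mpr Relation.ReflTransGen.refl
  have h2 : tgt s t o e ∉ F := fun h => hpath ((hmem _).mp h)
  have h3 := hK F (Finset.ne_empty_of_mem h1) (fun h => h2 (h ▸ Finset.mem_univ _))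
    (fun a ha b hab => (hmem _).mpr (((hmem _).mp ha).tail hab))
  rw [wt_we] at h3
  have h4 : cr s t o F e = 1 := by
    rw [cr, if_pos h1, if_neg h2]
    norm_num
  have h5 := dom_pos hν (fun i _ => cr_ge s t o F i) he h4 (fun i hi _ => hmax i hi)
  linarith

theorem exists_numbering (A : Finset ι) (e : ι) :
    ∃ ν : ι → ℕ, Set.InjOn ν (A : Set ι) ∧ ∀ i ∈ A, ν i ≤ ν e := by
  classical
  refine ⟨fun i => if i = e then A.card else if h : i ∈ A then (A.equivFin ⟨i, h⟩ : ℕ) else 0,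
    ?_, ?_⟩
  · intro i hi j hj hij
    have hi' : i ∈ A := hi
    have hj' : j ∈ A := hj
    beta_reduce at hij
    by_cases h1 : i = e
    · by_cases h2 : j = e
      · rw [h1, h2]
      · rw [if_pos h1, if_neg h2, dif_pos hj'] at hij
        have := (A.equivFin ⟨j, hj'⟩).2
        omega
    · by_cases h2 : j = e
      · rw [if_neg h1, if_pos h2, dif_pos hi'] at hij
        have := (A.equivFin ⟨i, hi'⟩).2
        omega
      · rw [if_neg h1, if_neg h2, dif_pos hi', dif_pos hj'] at hij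
        have h3 := A.equivFin.injective (Fin.ext hij)
        exact congrArg Subtype.val h3
  · intro i hi
    beta_reduce
    rw [if_pos (rfl : e = e)]
    by_cases h1 : i = e
    · rw [if_pos h1]
    · rw [if_neg h1, dif_pos hi]
      exact (A.equivFin ⟨i, hi⟩).2.le

/-- a connected system all of whose edges, except possibly one, are natural is not killed by
some functional -/
theorem exists_weight [Nonempty V] {ω : V → ℕ} (hω : Function.Injective ω) {A : Finset ι}
    {o : ι → Bool} (hconn : ∀ a b, conn s t A a b)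
    (hnat : ∀ i ∈ A, ω (src s t o i) < ω (tgt s t o i)) (e : ι)
    (hpath : e ∈ A →
      ¬ Relation.ReflTransGen (arc s t (A.erase e) o) (src s t o e) (tgt s t o e)) :
    ∃ w : V → ℤ, Generic w ∧ ∀ o' : ι → Bool, (∀ i ∈ A, i ≠ e → o' i = o i) →
      (e ∈ A → o' e = !(o e)) → U w univ (GamA s t ω A o') ≠ 0 := by
  obtain ⟨ν, hν, hmax⟩ := exists_numbering A e
  have hgen := generic_we s t hν hconn o
  have hK := K_we s t hν hconn o
  refine ⟨we s t ν A o, hgen, fun o' ho1 ho2 => ?_⟩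
  by_cases he : e ∈ A
  · have hne : s e ≠ t e := by
      intro h
      have := hnat e he
      rw [src, tgt, h] at this
      cases o e <;> simp at this
    have h1 : GamA s t ω A o' = GamA s t ω A (Function.update o e (!(o e))) := by
      apply GamA_congr
      intro i hi
      by_cases hie : i = e
      · rw [hie, Function.update_self, ho2 he]
      · rw [Function.update_of_ne hie, ho1 i hi hie]
    have h2 := GamA_flip s t hω (o := o) he hne
    have h3 := congrArg (U (we s t ν A o) univ) h2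
    rw [U_add, ← h1, GamA_nat s t hnat, GamA_nat s t (A := A.erase e)
      (fun i hi => hnat i (Finset.mem_of_mem_erase hi))] at h3
    have h4 := U_mono_lt hgen (r := arc s t (A.erase e) o) (r' := arc s t A o)
      (fun a b h => by
        obtain ⟨i, hi, h'⟩ := h
        exact ⟨i, Finset.mem_of_mem_erase hi, h'⟩)
      (not_K_we s t hν o he hmax (hpath he)) hK
    intro h5
    rw [h5, add_zero] at h3
    exact h4.ne h3
  · have h1 : GamA s t ω A o' = GamA s t ω A o := by
      apply GamA_congr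
      intro i hi
      exact ho1 i hi (fun h => he (h ▸ hi))
    rw [h1, GamA_nat s t hnat]
    exact (U_mono_neg hgen hK).ne

end wts

end Pool.Agent.Lib.MP_5bc52d_co.Cyc
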