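import Mathlib
import Pool.Agent.Lib.MP_5bc52d_co.Cyc.Wt
import Pool.Agent.Lib.MP_5bc52d_co.Cyc.Reversal
import Pool.Agent.Lib.MP_5bc52d_co.Cyc.Graph
import Pool.Agent.Lib.MP_5bc52d_co.Key.S2

/-!
# No mixed cycle: the generating function is not in the square of the augmentation ideal

Let `(P, ω)` be a finite connected labelled poset such that, possibly after changing the type
of one cover relation, every cycle of the Hasse diagram consists of weak cover relations only or
of strict cover relations only. Then the generating function of `(P, ω)` is not a sum of products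
of two elements without constant term.
-/

set_option linter.unusedSectionVars false

namespace Pool.Agent.Lib.MP_5bc52d_co.Cyc.Final

/-- A cover relation `a ⋖ b` is weak if `ω a < ω b` and strict if `ω b < ω a`. After changing the
type of `e` (if `e` is a cover relation), no cycle of the Hasse diagram contains both a weak and a
strict cover relation. -/
def NoMixedCycleUpTo {P : Type} [PartialOrder P] (ω : P → ℕ) (e : P × P) : Prop :=
  ∀ (v : P) (c : (SimpleGraph.hasse P).Walk v v), c.IsCycle →
    (∀ a b : P, a ⋖ b → s(a, b) ∈ c.edges → (ω a < ω b ↔ (a, b) ≠ e)) ∨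
    (∀ a b : P, a ⋖ b → s(a, b) ∈ c.edges → (ω b < ω a ↔ (a, b) ≠ e))

open Pool.Agent.Lib.MP_5bc52d_co Pool.Agent.Lib.MP_5bc52d_co.Cyc Finset
open Pool.Agent.Lib.MP_5bc52d_co.Key Pool.Agent.Lib.MP_5bc52d_co.Cut

theorem valid_cov {P : Type} [Fintype P] [PartialOrder P] {ω : P → ℕ}
    (hω : Function.Injective ω) (f : P → ℕ) :
    Valid (Prod.fst : P × P → P) Prod.snd ω (cov P) (fun _ => true) f ↔
      ∀ a b : P, a < b → f a ≤ f b ∧ (ω b < ω a → f a < f b) := by
  classical
  constructor
  · intro h a b hab
    have h1 : lexlt ω f a b := by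
      let _ := Fintype.toLocallyFiniteOrder (α := P)
      have h2 := transGen_covBy_of_lt hab
      clear hab
      induction h2 with
      | single h3 =>
        have := h (a, _) (mem_cov.mpr h3)
        simpa [src, tgt] using this
      | tail _ h3 ih =>
        have := h (_, _) (mem_cov.mpr h3)
        refine lexlt_trans ih ?_
        simpa [src, tgt] using this
    rw [lexlt] at h1
    omega
  · intro h e he
    have h1 := h e.1 e.2 (mem_cov.mp he).lt
    have h2 : ω e.1 ≠ ω e.2 := fun h3 => (mem_cov.mp he).lt.ne (hω h3)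
    simp only [src, tgt, if_true, lexlt]
    omega

variable {P : Type} [Fintype P] [hd : DecidableEq P] [PartialOrder P]

/-- there is a functional which kills products and does not kill the generating function -/
theorem exists_functional {ω : P → ℕ} (hω : Function.Injective ω)
    (hP : (SimpleGraph.fromRel (fun a b : P => a ≤ b)).Connected) {e : P × P}
    (he : NoMixedCycleUpTo ω e) :
    ∃ w : P → ℤ, Generic w ∧ U w univ (Gam ω (univ : Finset P)) ≠ 0 := by
  obtain rfl : hd = fun a b => Classical.propDecidable (a = b) := Subsingleton.elim _ _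
  classical
  have : Nonempty P := hP.nonempty
  have hG' : Gam ω (univ : Finset P) =
      GamA (Prod.fst : P × P → P) Prod.snd ω (cov P) (fun _ => true) := by
    funext m
    rw [GamA]
    change (Nat.card (Sol ω univ m) : ℚ) = _
    congr 1
    refine Nat.card_congr (Equiv.subtypeEquivRight fun f => ?_)
    rw [valid_cov hω]
    constructor
    · rintro ⟨-, h1, h2⟩
      exact ⟨fun a b hab => h1 a (mem_univ a) b (mem_univ b) hab, h2⟩
    · rintro ⟨h1, h2⟩
      exact ⟨fun p hp => absurd (mem_univ p) hp, fun a _ b _ hab => h1 a b hab, h2⟩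
  have hs : ∀ i ∈ cov P, (Prod.fst i : P) ≠ Prod.snd i := fun i hi => (mem_cov.mp hi).lt.ne
  have hconn := conn_cov hP
  -- the natural orientation
  have hnat : ∀ i ∈ cov P, ω (src Prod.fst Prod.snd (onat ω) i) <
      ω (tgt Prod.fst Prod.snd (onat ω) i) := by
    intro i hi
    have h2 : ω i.1 ≠ ω i.2 := fun h3 => (mem_cov.mp hi).lt.ne (hω h3)
    rw [src, tgt, onat]
    by_cases h3 : ω i.1 < ω i.2
    · simp [h3]
    · simp only [h3, decide_false, Bool.false_eq_true, if_false]
      omega
  obtain ⟨w, hw, hU⟩ := exists_weight (Prod.fst : P × P → P) Prod.snd hω hconn hnat e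
    (fun h => no_path hω he h)
  have hrev := reversal (Prod.fst : P × P → P) Prod.snd
    (fun A o => U w univ (GamA Prod.fst Prod.snd ω A o))
    (fun A o o' h => by rw [GamA_congr Prod.fst Prod.snd h])
    (fun A o i hi hne => by
      rw [← GamA_flip Prod.fst Prod.snd hω hi hne, U_add])
    (fun A o x y h => GamA_bridge Prod.fst Prod.snd hw h)
    (fun A o x h => by
      rw [GamA_cyc Prod.fst Prod.snd h]
      have := U_add w (univ : Finset P) 0 0
      rw [add_zero] at this
      linarith)
    _ (cov P) (cstr ω e) rfl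
    (fun i hi => mem_cov.mpr (mem_cstr.mp hi).1) hs (sep_of_noMixed hω he) (fun _ => true)
  have h1 := hU (rev (cstr ω e) (fun _ => true))
    (fun i hi hie => by
      have h2 : ω i.1 ≠ ω i.2 := fun h3 => (mem_cov.mp hi).lt.ne (hω h3)
      rw [rev, onat]
      by_cases h3 : ω i.1 < ω i.2
      · rw [if_neg]
        · simp [h3]
        · rw [mem_cstr]
          rintro ⟨_, h4⟩
          have := h4.mpr hie
          omega
      · rw [if_pos]
        · simp [h3]
        · rw [mem_cstr]
          exact ⟨mem_cov.mp hi, fun _ => hie, fun _ => by omega⟩)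
    (fun hi => by
      have h2 : ω e.1 ≠ ω e.2 := fun h3 => (mem_cov.mp hi).lt.ne (hω h3)
      rw [rev, onat]
      by_cases h3 : ω e.1 < ω e.2
      · rw [if_pos]
        · simp [h3]
        · rw [mem_cstr]
          refine ⟨mem_cov.mp hi, fun h4 => by omega, fun h4 => absurd rfl h4⟩
      · rw [if_neg]
        · simp [h3]
        · rw [mem_cstr]
          rintro ⟨_, h4⟩
          exact h4.mp (by omega) rfl)
  rw [hrev] at h1
  refine ⟨w, hw, fun h3 => h1 ?_⟩
  rw [← hG', h3, mul_zero]

variable {Q : Subring R} (hQ : ∀ F : R, F ∈ Q ↔ IsQS F)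
include hQ

/-- the functionals vanish on the square of the augmentation ideal -/
theorem U_sq {w : P → ℤ} (hw : Generic w) {f : Q} (hf : f ∈ (RingHom.ker (cc Q)) ^ 2) :
    U w univ (f : R) = 0 := by
  rw [pow_two] at hf
  refine Submodule.mul_induction_on (C := fun g : Q => U w univ (g : R) = 0) hf ?_ ?_
  · intro g hg k hk
    rw [RingHom.mem_ker, cc_apply] at hg hk
    exact U_mul_zero hw ((hQ _).mp g.2) ((hQ _).mp k.2) hg hk
  · intro g k hg hk
    change U w univ ((g : R) + (k : R)) = 0
    rw [U_add, hg, hk, add_zero]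

/-- The generating function of a connected labelled poset without mixed cycles, up to one cover
relation, is not a sum of products of two elements without constant term. -/
theorem GamQ_notMem_sq {ω : P → ℕ} (hω : Function.Injective ω)
    (hP : (SimpleGraph.fromRel (fun a b : P => a ≤ b)).Connected) {e : P × P}
    (he : NoMixedCycleUpTo ω e) :
    GamQ hQ ω (univ : Finset P) ∉ (RingHom.ker (cc Q)) ^ 2 := by
  obtain ⟨w, hw, h⟩ := exists_functional hω hP he
  exact fun h1 => h (U_sq hQ hw h1)

omit hQ in
theorem connected_of_Conn {U : Finset P} (hU : U.Nonempty) (h : Conn U) :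
    (SimpleGraph.fromRel (fun a b : {x // x ∈ U} => a ≤ b)).Connected := by
  classical
  obtain ⟨x₀, hx₀⟩ := hU
  have h1 : ∀ a : {x // x ∈ U},
      (SimpleGraph.fromRel (fun a b : {x // x ∈ U} => a ≤ b)).Reachable ⟨x₀, hx₀⟩ a := by
    have h2 : U.filter (fun x => ∃ hx : x ∈ U,
        (SimpleGraph.fromRel (fun a b : {x // x ∈ U} => a ≤ b)).Reachable ⟨x₀, hx₀⟩
          ⟨x, hx⟩) = U := by
      apply h _ (Finset.filter_subset _ _)
      · exact ⟨x₀, Finset.mem_filter.mpr ⟨hx₀, hx₀, SimpleGraph.Reachable.refl _⟩⟩
      · intro x hx y hy hxy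
        obtain ⟨-, hxU, hr⟩ := Finset.mem_filter.mp hx
        refine Finset.mem_filter.mpr ⟨hy, hy, hr.trans (SimpleGraph.Adj.reachable ?_)⟩
        rw [SimpleGraph.fromRel_adj]
        refine ⟨fun h3 => ?_, ?_⟩
        · have h5 : x = y := congrArg Subtype.val h3
          subst h5
          rcases hxy with h4 | h4
          · exact absurd h4 (lt_irrefl x)
          · exact absurd h4 (lt_irrefl x)
        · rcases hxy with h4 | h4
          · exact Or.inl h4.le
          · exact Or.inr h4.le
    intro a
    have h3 : a.1 ∈ U.filter (fun x => ∃ hx : x ∈ U,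
        (SimpleGraph.fromRel (fun a b : {x // x ∈ U} => a ≤ b)).Reachable ⟨x₀, hx₀⟩
          ⟨x, hx⟩) := by
      rw [h2]
      exact a.2
    obtain ⟨_, _, h4⟩ := Finset.mem_filter.mp h3
    exact h4
  have : Nonempty {x // x ∈ U} := ⟨⟨x₀, hx₀⟩⟩
  exact SimpleGraph.Connected.mk (fun a b => (h1 a).symm.trans (h1 b))

/-- The version for a subset `U`, with the cover relations of the induced order. -/
theorem GamQ_notMem_sq_sub {ω : P → ℕ} (hω : Function.Injective ω) {U : Finset P}
    (hne : U.Nonempty) (hU : Conn U) {e : {x // x ∈ U} × {x // x ∈ U}}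
    (he : NoMixedCycleUpTo (fun x : {x // x ∈ U} => ω x) e) :
    GamQ hQ ω U ∉ (RingHom.ker (cc Q)) ^ 2 := by
  rw [GamQ_subtype]
  exact GamQ_notMem_sq hQ (ω := fun x : {x // x ∈ U} => ω x)
    (fun a b hab => Subtype.ext (hω hab)) (connected_of_Conn hne hU) he

end Pool.Agent.Lib.MP_5bc52d_co.Cyc.Final
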